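import Pool.Agent.H700.LR.Geo

/-!
# From pure pairs to the logarithm of the chromatic number
-/

set_option autoImplicit false

namespace Pool.Agent.H700.LR

open Finset
open Pool.Agent.Y424.LR (mat bv)
open Pool.Agent.Y424.PP (HasPure)

/-- **Pure pairs and the chromatic number**, twins allowed. -/
theorem bound_of_pure {V : Type} [Fintype V] (G : SimpleGraph V) [DecidableRel G.Adj]
    (F : V → V → Bool) (hFG : ∀ u v, F u v = true ↔ G.Adj u v) {c : ℕ} (hc : 1 ≤ c)
    (hF : HasPure F c) :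
    Real.logb 2 (G.chromaticNumber.toNat : ℝ) ≤
      (Real.logb 2 ((G.adjMatrix ℝ).rank : ℝ) + 1) * (Real.logb 2 (c : ℝ) + 1) := by
  classical
  have hmat : mat F = G.adjMatrix ℝ := by
    ext x y
    rw [SimpleGraph.adjMatrix_apply, mat, Matrix.of_apply, bv]
    by_cases h : G.Adj x y
    · rw [if_pos ((hFG x y).2 h), if_pos h]
    · rw [if_neg (fun h' => h ((hFG x y).1 h')), if_neg h]
  have hsym : ∀ x y, F x y = F y x := by
    intro x y
    rw [Bool.eq_iff_iff, hFG, hFG]
    exact G.adj_comm x y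
  have hirr : ∀ x, F x x = false := by
    intro x
    rw [← Bool.not_eq_true, hFG]
    exact G.loopless.irrefl x
  obtain ⟨f, hf1, hf2⟩ := main_twins hsym hirr hc hF
  rw [hmat] at hf1
  obtain ⟨r, hrr⟩ : ∃ r, r = (G.adjMatrix ℝ).rank := ⟨_, rfl⟩
  rw [← hrr] at hf1 ⊢
  obtain ⟨N, hN⟩ : ∃ N, N = c ^ (Nat.log 2 r + 1) * (r + 1) := ⟨_, rfl⟩
  rw [← hN] at hf1
  have hcol : G.Colorable N := by
    refine ⟨SimpleGraph.Coloring.mk (fun x => (⟨f x, hf1 x⟩ : Fin N)) ?_⟩
    intro x y hxy heq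
    have h1 : f x = f y := by
      have := congrArg Fin.val heq
      exact this
    have h2 := hf2 x y h1
    rw [(hFG x y).2 hxy] at h2
    exact absurd h2 (by decide)
  have h2 : G.chromaticNumber.toNat ≤ N := by
    have := ENat.toNat_le_toNat hcol.chromaticNumber_le (ENat.natCast_ne_top N)
    simpa using this
  have hL : 0 ≤ Real.logb 2 (r : ℝ) := Pool.Agent.H630R2.LR.logb_nonneg r
  have hc0 : (1 : ℝ) ≤ (c : ℝ) := by exact_mod_cast hc
  have hlc : 0 ≤ Real.logb 2 (c : ℝ) := Real.logb_nonneg (by norm_num) hc0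
  by_cases h0 : G.chromaticNumber.toNat = 0
  · rw [h0, Nat.cast_zero, Real.logb_zero]
    exact mul_nonneg (by linarith) (by linarith)
  · have h3 : (0 : ℝ) < (G.chromaticNumber.toNat : ℝ) := by exact_mod_cast Nat.pos_of_ne_zero h0
    have h4 : Real.logb 2 (G.chromaticNumber.toNat : ℝ) ≤ Real.logb 2 (N : ℝ) :=
      Real.logb_le_logb_of_le (by norm_num) h3 (by exact_mod_cast h2)
    have h5 : Real.logb 2 (N : ℝ) = ((Nat.log 2 r : ℝ) + 1) * Real.logb 2 (c : ℝ) +
        Real.logb 2 ((r : ℝ) + 1) := by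
      rw [hN, Nat.cast_mul, Nat.cast_pow, Real.logb_mul (by positivity) (by positivity),
        Real.logb_pow]
      push_cast
      ring
    have h6 : (Nat.log 2 r : ℝ) ≤ Real.logb 2 (r : ℝ) := by
      have := Real.natLog_le_logb r 2
      exact_mod_cast this
    have h7 : Real.logb 2 ((r : ℝ) + 1) ≤ Real.logb 2 (r : ℝ) + 1 := by
      rcases Nat.eq_zero_or_pos r with hr | hr
      · rw [hr]
        simp
      · have hr0 : (1 : ℝ) ≤ (r : ℝ) := by exact_mod_cast hr
        have e : Real.logb 2 (r : ℝ) + 1 = Real.logb 2 (2 * (r : ℝ)) := by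
          rw [Real.logb_mul (by norm_num) (by positivity), Real.logb_self_eq_one (by norm_num)]
          ring
        rw [e]
        exact Real.logb_le_logb_of_le (by norm_num) (by positivity) (by linarith)
    nlinarith

theorem logb_mul_pow {a : ℕ} (b : ℕ) (ha : 1 ≤ a) :
    Real.logb 2 ((a * 2 ^ b : ℕ) : ℝ) = Real.logb 2 (a : ℝ) + b := by
  have ha0 : (a : ℝ) ≠ 0 := by
    have : 0 < a := ha
    exact_mod_cast this.ne'
  rw [Nat.cast_mul, Real.logb_mul ha0 (by positivity), Nat.cast_pow, Real.logb_pow]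
  norm_num

/-- **Distance graphs of graphs with a separable distance.** -/
theorem distance_bound {V : Type} [Fintype V] (H G : SimpleGraph V) [DecidableRel G.Adj]
    (hH : H.Connected) (D : Set ℕ) {c : ℕ} (hc1 : 1 ≤ c)
    (hc : Separable (fun u v => (H.dist u v : ℝ)) c)
    (hG : ∀ u v, G.Adj u v ↔ u ≠ v ∧ H.dist u v ∈ D) :
    Real.logb 2 (G.chromaticNumber.toNat : ℝ) ≤
      (Real.logb 2 ((G.adjMatrix ℝ).rank : ℝ) + 1) *
        (Real.logb 2 (c : ℝ) + 11 * (Real.logb 2 ((G.adjMatrix ℝ).rank : ℝ) + 1) ^ 5 + 1) := by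
  classical
  let g : ℕ → Bool := fun n => decide (n ≠ 0 ∧ n ∈ D)
  let F : V → V → Bool := fun u v => g (H.dist u v)
  have hFG : ∀ u v, F u v = true ↔ G.Adj u v := by
    intro u v
    rw [hG]
    simp only [F, g, decide_eq_true_eq]
    rw [Ne, hH.dist_eq_zero_iff]
  have hmat : mat F = G.adjMatrix ℝ := by
    ext x y
    rw [SimpleGraph.adjMatrix_apply, mat, Matrix.of_apply, bv]
    by_cases h : G.Adj x y
    · rw [if_pos ((hFG x y).2 h), if_pos h]
    · rw [if_neg (fun h' => h ((hFG x y).1 h')), if_neg h]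
  have hpure : HasPure F (c * 2 ^ toep (mat F).rank) := by
    intro A hA
    obtain ⟨x, hx, _⟩ := hA
    exact rich_of_separable hH g hc A A ⟨x, hx⟩ ⟨x, hx⟩
  have h1 := bound_of_pure G F hFG (Nat.mul_pos hc1 (by positivity)) hpure
  rw [logb_mul_pow _ hc1, hmat] at h1
  have h2 : (toep (G.adjMatrix ℝ).rank : ℝ) ≤
      11 * (Real.logb 2 ((G.adjMatrix ℝ).rank : ℝ) + 1) ^ 5 := by
    unfold toep
    refine Nat.floor_le ?_
    have := Pool.Agent.H630R2.LR.logb_nonneg (G.adjMatrix ℝ).rank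
    positivity
  have hL := Pool.Agent.H630R2.LR.logb_nonneg (G.adjMatrix ℝ).rank
  refine h1.trans ?_
  refine mul_le_mul_of_nonneg_left ?_ (by linarith)
  linarith

end Pool.Agent.H700.LR
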