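import Pool.Agent.H700.LR.Host

/-!
# Geodesics give Toeplitz matrices
-/

set_option autoImplicit false

namespace Pool.Agent.H700.LR

open Finset
open Pool.Agent.Y424.LR (mat bv)
open Pool.Agent.Y424.PP (HasPure)
open Pool.Agent.H630R2.LR (Proto comm final_hankel)

theorem walk_getVert_dist_le {V : Type} {H : SimpleGraph V} (hH : H.Connected) {u v : V}
    (p : H.Walk u v) (i d : ℕ) : H.dist (p.getVert i) (p.getVert (i + d)) ≤ d := by
  induction d with
  | zero => simp
  | succ d ih =>
    have h1 : H.dist (p.getVert i) (p.getVert (i + (d + 1))) ≤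
        H.dist (p.getVert i) (p.getVert (i + d)) +
          H.dist (p.getVert (i + d)) (p.getVert (i + (d + 1))) := hH.dist_triangle
    have h2 : H.dist (p.getVert (i + d)) (p.getVert (i + (d + 1))) ≤ 1 := by
      by_cases h : i + d < p.length
      · exact (SimpleGraph.dist_eq_one_iff_adj.2 (p.adj_getVert_succ h)).le
      · rw [p.getVert_of_length_le (by omega), p.getVert_of_length_le (by omega),
          SimpleGraph.dist_self]
        omega
    omega

/-- a geodesic -/
theorem exists_geodesic {V : Type} {H : SimpleGraph V} (hH : H.Connected) (u v : V) :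
    ∃ p : ℕ → V, p 0 = u ∧ p (H.dist u v) = v ∧
      ∀ i j, i ≤ j → j ≤ H.dist u v → H.dist (p i) (p j) = j - i := by
  obtain ⟨w, hw⟩ := hH.exists_walk_length_eq_dist u v
  refine ⟨w.getVert, w.getVert_zero, by rw [← hw, w.getVert_length], ?_⟩
  intro i j hij hj
  have h1 := walk_getVert_dist_le hH w i (j - i)
  rw [show i + (j - i) = j by omega] at h1
  have h2 := walk_getVert_dist_le hH w 0 i
  rw [zero_add, w.getVert_zero] at h2
  have h3 := walk_getVert_dist_le hH w j (H.dist u v - j)
  rw [show j + (H.dist u v - j) = w.length by omega, w.getVert_length] at h3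
  have h4 : H.dist u v ≤ H.dist u (w.getVert i) + H.dist (w.getVert i) v := hH.dist_triangle
  have h5 : H.dist (w.getVert i) v ≤ H.dist (w.getVert i) (w.getVert j) +
      H.dist (w.getVert j) v := hH.dist_triangle
  omega

/-- The bound for the number of bits for Toeplitz matrices. -/
noncomputable def toep (r : ℕ) : ℕ := ⌊11 * (Real.logb 2 (r : ℝ) + 1) ^ 5⌋₊

/-- **Functions of the distance have large constant rectangles.** -/
theorem rich_of_separable {V : Type} [Fintype V] {H : SimpleGraph V} (hH : H.Connected) (g : ℕ → Bool)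
    {c : ℕ} (hc : Separable (fun u v => (H.dist u v : ℝ)) c) (X Y : Finset V) (hX : X.Nonempty)
    (hY : Y.Nonempty) :
    ∃ X' ⊆ X, ∃ Y' ⊆ Y,
      X.card ≤ (c * 2 ^ toep (mat (fun u v => g (H.dist u v))).rank) * X'.card ∧
      Y.card ≤ (c * 2 ^ toep (mat (fun u v => g (H.dist u v))).rank) * Y'.card ∧
      ∃ b, ∀ x ∈ X', ∀ y ∈ Y', g (H.dist x y) = b := by
  classical
  obtain ⟨X1, hX1, Y1, hY1, h1, h2, a, b, hab⟩ := hc X Y hX hY
  have hX1n := nonempty_of_card hX h1
  have hY1n := nonempty_of_card hY h2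
  obtain ⟨u0, hu0, hu0max⟩ := exists_max_image X1 a hX1n
  obtain ⟨v0, hv0, hv0max⟩ := exists_max_image Y1 b hY1n
  obtain ⟨p, hp0, hpL, hp⟩ := exists_geodesic hH u0 v0
  set L := H.dist u0 v0 with hL
  -- additive structure in integers
  have hadd : ∀ u ∈ X1, ∀ v ∈ Y1, H.dist u v + L = H.dist u v0 + H.dist u0 v ∧
      H.dist u v0 ≤ L ∧ H.dist u0 v ≤ L := by
    intro u hu v hv
    have e1 := hab u hu v hv
    have e2 := hab u hu v0 hv0
    have e3 := hab u0 hu0 v hv
    have e4 := hab u0 hu0 v0 hv0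
    have l1 := hu0max u hu
    have l2 := hv0max v hv
    simp only at e1 e2 e3 e4
    refine ⟨?_, ?_, ?_⟩
    · have : (H.dist u v : ℝ) + L = H.dist u v0 + H.dist u0 v := by
        rw [e1, e2, e3, hL, e4]
        ring
      exact_mod_cast this
    · have : (H.dist u v0 : ℝ) ≤ L := by
        rw [hL, e2, e4]
        linarith
      exact_mod_cast this
    · have : (H.dist u0 v : ℝ) ≤ L := by
        rw [hL, e3, e4]
        linarith
      exact_mod_cast this
  -- the Toeplitz matrix
  let M : Fin (L + 1) → Fin (L + 1) → Bool := fun i j => g (H.dist (p i) (p j))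
  have hM : ∀ i j : Fin (L + 1), M i j = (fun z : ℤ => g z.natAbs) ((i : ℤ) - (j : ℤ)) := by
    intro i j
    simp only [M]
    congr 1
    have hi := i.2
    have hj := j.2
    rcases le_total (i : ℕ) (j : ℕ) with hij | hij
    · rw [hp i j hij (by omega)]
      omega
    · rw [SimpleGraph.dist_comm, hp j i hij (by omega)]
      omega
  obtain ⟨d, hd, hdle⟩ := final_hankel M (Or.inr ⟨fun z : ℤ => g z.natAbs, hM⟩)
  have hrk : (comm M).rank ≤ (mat (fun u v => g (H.dist u v))).rank := by
    have : comm M = (mat (fun u v => g (H.dist u v))).submatrix (fun i : Fin (L + 1) => p i)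
        (fun j : Fin (L + 1) => p j) := rfl
    rw [this]
    exact Matrix.rank_submatrix_le _ _ _
  set r := (mat (fun u v => g (H.dist u v))).rank with hr
  have hdt : d ≤ toep r := by
    refine Nat.le_floor (hdle.trans ?_)
    have h0 : 0 ≤ Real.logb 2 ((comm M).rank : ℝ) := Pool.Agent.H630R2.LR.logb_nonneg _
    have h3 : Real.logb 2 ((comm M).rank : ℝ) ≤ Real.logb 2 (r : ℝ) := by
      rcases Nat.eq_zero_or_pos (comm M).rank with h | h
      · rw [h, Nat.cast_zero, Real.logb_zero]
        exact Pool.Agent.H630R2.LR.logb_nonneg _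
      · exact Real.logb_le_logb_of_le (by norm_num) (by exact_mod_cast h) (by exact_mod_cast hrk)
    gcongr
  obtain ⟨X2, hX2, Y2, hY2, h3, h4, b', hb'⟩ := rect_of_proto hd
    (fun u : V => (⟨L - H.dist u v0, by omega⟩ : Fin (L + 1)))
    (fun v : V => (⟨H.dist u0 v ⊓ L, by omega⟩ : Fin (L + 1))) X1 Y1
  have hpow : 2 ^ d ≤ 2 ^ toep r := Nat.pow_le_pow_right (by norm_num) hdt
  refine ⟨X2, hX2.trans hX1, Y2, hY2.trans hY1, ?_, ?_, b', fun x hx y hy => ?_⟩
  · calc X.card ≤ c * X1.card := h1
      _ ≤ c * (2 ^ toep r * X2.card) :=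
        Nat.mul_le_mul_left _ (h3.trans (Nat.mul_le_mul_right _ hpow))
      _ = c * 2 ^ toep r * X2.card := by ring
  · calc Y.card ≤ c * Y1.card := h2
      _ ≤ c * (2 ^ toep r * Y2.card) :=
        Nat.mul_le_mul_left _ (h4.trans (Nat.mul_le_mul_right _ hpow))
      _ = c * 2 ^ toep r * Y2.card := by ring
  · rw [← hb' x hx y hy]
    obtain ⟨e1, e2, e3⟩ := hadd x (hX2 hx) y (hY2 hy)
    simp only [M]
    congr 1
    have hmin : H.dist u0 y ⊓ L = H.dist u0 y := by omega
    rw [hmin]
    rw [hp (L - H.dist x v0) (H.dist u0 y) (by omega) e3]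
    omega

end Pool.Agent.H700.LR
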