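import Pool.Agent.H700.LR.Sep

/-!
# Distances in graphs of bounded width are separable
-/

set_option autoImplicit false

namespace Pool.Agent.H700.LR

open Finset

/-- number of different neighbourhoods of the vertices of `S` outside of `S` -/
noncomputable def types {U : Type} (K : SimpleGraph U) (S : Set U) : ℕ :=
  ((fun a => K.neighborSet a \ S) '' S).ncard

/-- the vertices of `S` have at most `k` different neighbourhoods outside of `S`, or the vertices
outside of `S` have at most `k` different neighbourhoods in `S` -/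
def SmallCut {U : Type} (K : SimpleGraph U) (k : ℕ) (S : Set U) : Prop :=
  types K S ≤ k ∨ types K Sᶜ ≤ k

/-- binary trees with leaves labelled by vertices -/
inductive Layout (U : Type) : Type
  | leaf : U → Layout U
  | node : Layout U → Layout U → Layout U

/-- the labels of the leaves -/
def Layout.verts {U : Type} : Layout U → Set U
  | .leaf x => {x}
  | .node l r => l.verts ∪ r.verts

/-- all cuts given by the subtrees are small -/
def Layout.Small {U : Type} (K : SimpleGraph U) (k : ℕ) : Layout U → Prop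
  | .leaf _ => True
  | .node l r => SmallCut K k l.verts ∧ SmallCut K k r.verts ∧ l.Small K k ∧ r.Small K k

/-- width at most `k` -/
def WidthLE {U : Type} (K : SimpleGraph U) (k : ℕ) : Prop :=
  ∃ T : Layout U, T.verts = Set.univ ∧ T.Small K k

theorem SmallCut.mono {U : Type} {K : SimpleGraph U} {k k' : ℕ} {S : Set U}
    (h : SmallCut K k S) (hk : k ≤ k') : SmallCut K k' S :=
  h.imp (fun h => h.trans hk) (fun h => h.trans hk)

theorem Layout.Small.mono {U : Type} {K : SimpleGraph U} {k k' : ℕ} (hk : k ≤ k') :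
    ∀ {T : Layout U}, T.Small K k → T.Small K k'
  | .leaf _, _ => trivial
  | .node _ _, h => ⟨h.1.mono hk, h.2.1.mono hk, Layout.Small.mono hk h.2.2.1,
      Layout.Small.mono hk h.2.2.2⟩

theorem WidthLE.mono {U : Type} {K : SimpleGraph U} {k k' : ℕ} (h : WidthLE K k) (hk : k ≤ k') :
    WidthLE K k' := by
  obtain ⟨T, h1, h2⟩ := h
  exact ⟨T, h1, h2.mono hk⟩

/-- a walk which leaves `S` has a crossing edge -/
theorem crossing {U : Type} {K : SimpleGraph U} (hK : K.Connected) (S : Set U) {u v : U}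
    (p : K.Walk u v) (hu : u ∈ S) (hv : v ∉ S) :
    ∃ a b, a ∈ S ∧ b ∉ S ∧ K.Adj a b ∧ K.dist u a + 1 + K.dist b v ≤ p.length := by
  induction p with
  | nil => exact absurd hu hv
  | cons h p ih =>
    rename_i u w v
    by_cases hw : w ∈ S
    · obtain ⟨a, b, ha, hb, hab, hle⟩ := ih hw hv
      refine ⟨a, b, ha, hb, hab, ?_⟩
      have h1 : K.dist u a ≤ K.dist u w + K.dist w a := hK.dist_triangle
      have h2 : K.dist u w = 1 := SimpleGraph.dist_eq_one_iff_adj.2 h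
      rw [SimpleGraph.Walk.length_cons]
      omega
    · refine ⟨u, w, hu, hw, h, ?_⟩
      have h1 := SimpleGraph.dist_le p
      rw [SimpleGraph.dist_self, SimpleGraph.Walk.length_cons]
      omega

/-- the distances across a cut with few types -/
theorem cut_formula {U : Type} [Finite U] {K : SimpleGraph U} (hK : K.Connected) (S : Set U) {k : ℕ}
    (hS : types K S ≤ k) (hne : S.Nonempty) (hnc : Sᶜ.Nonempty) :
    ∃ I : Finset (Set U), I.Nonempty ∧ I.card ≤ k ∧ ∃ α β : Set U → U → ℕ,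
      (∀ τ ∈ I, ∀ u v, K.dist u v ≤ α τ u + β τ v) ∧
      ∀ u ∈ S, ∀ v ∉ S, ∃ τ ∈ I, α τ u + β τ v ≤ K.dist u v := by
  classical
  have hfin : ((fun a => K.neighborSet a \ S) '' S).Finite := Set.toFinite _
  let I : Finset (Set U) := hfin.toFinset.filter (fun τ => τ.Nonempty)
  let α : Set U → U → ℕ := fun τ u => sInf {n | ∃ a ∈ S, K.neighborSet a \ S = τ ∧ n = K.dist u a}
  let β : Set U → U → ℕ := fun τ v => 1 + sInf {n | ∃ b ∈ τ, n = K.dist b v}
  have hkey : ∀ u ∈ S, ∀ v ∉ S, ∃ τ ∈ I, α τ u + β τ v ≤ K.dist u v := by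
    intro u hu v hv
    obtain ⟨p, hp⟩ := hK.exists_walk_length_eq_dist u v
    obtain ⟨a, b, ha, hb, hab, hle⟩ := crossing hK S p hu hv
    refine ⟨K.neighborSet a \ S, ?_, ?_⟩
    · refine mem_filter.2 ⟨?_, ⟨b, hab, hb⟩⟩
      rw [Set.Finite.mem_toFinset]
      exact ⟨a, ha, rfl⟩
    · have h1 : α (K.neighborSet a \ S) u ≤ K.dist u a := Nat.sInf_le ⟨a, ha, rfl, rfl⟩
      have h2 : sInf {n | ∃ b ∈ K.neighborSet a \ S, n = K.dist b v} ≤ K.dist b v :=
        Nat.sInf_le ⟨b, ⟨hab, hb⟩, rfl⟩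
      have h3 : β (K.neighborSet a \ S) v ≤ 1 + K.dist b v := Nat.add_le_add_left h2 1
      omega
  refine ⟨I, ?_, ?_, α, β, ?_, hkey⟩
  · obtain ⟨u, hu⟩ := hne
    obtain ⟨v, hv⟩ := hnc
    obtain ⟨τ, hτ, _⟩ := hkey u hu v hv
    exact ⟨τ, hτ⟩
  · refine (card_filter_le _ _).trans ?_
    rw [← Set.ncard_eq_toFinset_card _ hfin]
    exact hS
  · intro τ hτ u v
    obtain ⟨h1, h2⟩ := mem_filter.1 hτ
    rw [Set.Finite.mem_toFinset] at h1
    obtain ⟨a0, ha0, ha0'⟩ := h1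
    have h3 : ({n | ∃ a ∈ S, K.neighborSet a \ S = τ ∧ n = K.dist u a}).Nonempty :=
      ⟨_, a0, ha0, ha0', rfl⟩
    obtain ⟨b0, hb0⟩ := h2
    have h4 : ({n | ∃ b ∈ τ, n = K.dist b v}).Nonempty := ⟨_, b0, hb0, rfl⟩
    obtain ⟨a, ha, haτ, hαa⟩ := Nat.sInf_mem h3
    obtain ⟨b, hb, hβb⟩ := Nat.sInf_mem h4
    have hab : K.Adj a b := by
      rw [← haτ] at hb
      exact hb.1
    have h5 : K.dist u v ≤ K.dist u a + K.dist a v := hK.dist_triangle
    have h6 : K.dist a v ≤ K.dist a b + K.dist b v := hK.dist_triangle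
    have h7 : K.dist a b = 1 := SimpleGraph.dist_eq_one_iff_adj.2 hab
    have h8 : α τ u = K.dist u a := hαa
    have h9 : β τ v = 1 + K.dist b v := by
      simp only [β]
      rw [hβb]
    omega

/-- additivity across a cut with few types -/
theorem cut_sep_aux {U V : Type} [Finite U] {K : SimpleGraph U} (hK : K.Connected) (S : Set U)
    {k : ℕ} (hS : types K S ≤ k) (φ : V → U) (A B : Finset V) (hA : A.Nonempty) (hB : B.Nonempty)
    (hAS : ∀ x ∈ A, φ x ∈ S) (hBS : ∀ y ∈ B, φ y ∉ S) :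
    ∃ A' ⊆ A, ∃ B' ⊆ B, 2 * A.card ≤ 2 ^ k * A'.card ∧ 2 * B.card ≤ 2 ^ k * B'.card ∧
      Additive (fun u v => (K.dist (φ u) (φ v) : ℝ)) A' B' := by
  classical
  obtain ⟨x0, hx0⟩ := hA
  obtain ⟨y0, hy0⟩ := hB
  obtain ⟨I, hI, hIk, α, β, h1, h2⟩ := cut_formula hK S hS ⟨_, hAS x0 hx0⟩ ⟨_, hBS y0 hy0⟩
  obtain ⟨τ, hτ, A', hA', B', hB', h3, h4, h5⟩ := argmin I hI (fun τ x => (α τ (φ x) : ℝ))
    (fun τ y => (β τ (φ y) : ℝ)) A B ⟨x0, hx0⟩
  have hpow : 2 * 2 ^ (I.card - 1) ≤ 2 ^ k := by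
    have hpos := card_pos.2 hI
    calc 2 * 2 ^ (I.card - 1) = 2 ^ (I.card - 1 + 1) := by ring
      _ ≤ 2 ^ k := Nat.pow_le_pow_right (by norm_num) (by omega)
  refine ⟨A', hA', B', hB', ?_, ?_, fun x => (α τ (φ x) : ℝ), fun y => (β τ (φ y) : ℝ), ?_⟩
  · calc 2 * A.card ≤ 2 * (2 ^ (I.card - 1) * A'.card) := Nat.mul_le_mul_left _ h3
      _ = (2 * 2 ^ (I.card - 1)) * A'.card := by ring
      _ ≤ 2 ^ k * A'.card := Nat.mul_le_mul_right _ hpow
  · calc 2 * B.card ≤ 2 * (2 ^ (I.card - 1) * B'.card) := Nat.mul_le_mul_left _ h4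
      _ = (2 * 2 ^ (I.card - 1)) * B'.card := by ring
      _ ≤ 2 ^ k * B'.card := Nat.mul_le_mul_right _ hpow
  · intro x hx y hy
    obtain ⟨σ, hσ, h6⟩ := h2 (φ x) (hAS x (hA' hx)) (φ y) (hBS y (hB' hy))
    have h7 := h5 σ hσ x hx y hy
    have h8 := h1 τ hτ (φ x) (φ y)
    have h6' : (α σ (φ x) : ℝ) + β σ (φ y) ≤ K.dist (φ x) (φ y) := by exact_mod_cast h6
    have h8' : (K.dist (φ x) (φ y) : ℝ) ≤ α τ (φ x) + β τ (φ y) := by exact_mod_cast h8
    simp only
    linarith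

theorem Additive.symm {V : Type} {δ : V → V → ℝ} (hδ : ∀ u v, δ u v = δ v u) {X Y : Finset V}
    (h : Additive δ X Y) : Additive δ Y X := by
  obtain ⟨a, b, h⟩ := h
  refine ⟨b, a, fun u hu v hv => ?_⟩
  rw [hδ u v, h v hv u hu, add_comm]

theorem cut_sep {U V : Type} [Finite U] {K : SimpleGraph U} (hK : K.Connected) (S : Set U)
    {k : ℕ} (hS : SmallCut K k S) (φ : V → U) (A B : Finset V) (hA : A.Nonempty) (hB : B.Nonempty)
    (hAS : (∀ x ∈ A, φ x ∈ S) ∧ (∀ y ∈ B, φ y ∉ S) ∨ (∀ x ∈ A, φ x ∉ S) ∧ (∀ y ∈ B, φ y ∈ S)) :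
    ∃ A' ⊆ A, ∃ B' ⊆ B, 2 * A.card ≤ 2 ^ k * A'.card ∧ 2 * B.card ≤ 2 ^ k * B'.card ∧
      Additive (fun u v => (K.dist (φ u) (φ v) : ℝ)) A' B' := by
  have hsym : ∀ u v : V, (K.dist (φ u) (φ v) : ℝ) = (K.dist (φ v) (φ u) : ℝ) := by
    intro u v
    rw [SimpleGraph.dist_comm]
  rcases hS with hS | hS <;> rcases hAS with ⟨h1, h2⟩ | ⟨h1, h2⟩
  · exact cut_sep_aux hK S hS φ A B hA hB h1 h2
  · obtain ⟨B', hB', A', hA', h3, h4, h5⟩ := cut_sep_aux hK S hS φ B A hB hA h2 h1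
    exact ⟨A', hA', B', hB', h4, h3, h5.symm hsym⟩
  · obtain ⟨B', hB', A', hA', h3, h4, h5⟩ := cut_sep_aux hK Sᶜ hS φ B A hB hA h2
      (fun y hy => by simpa using h1 y hy)
    exact ⟨A', hA', B', hB', h4, h3, h5.symm hsym⟩
  · exact cut_sep_aux hK Sᶜ hS φ A B hA hB h1 (fun y hy => by simpa using h2 y hy)

open scoped Classical in
/-- balanced cuts -/
theorem balanced {U V : Type} {K : SimpleGraph U} {k : ℕ} (φ : V → U) (A : Finset V) :
    ∀ T : Layout U, T.Small K k → 2 * A.card < 3 * (A.filter (fun x => φ x ∈ T.verts)).card →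
    (∃ h : U, 2 * A.card < 3 * (A.filter (fun x => φ x ∈ ({h} : Set U))).card) ∨
    ∃ S : Set U, SmallCut K k S ∧ A.card ≤ 3 * (A.filter (fun x => φ x ∈ S)).card ∧
      3 * (A.filter (fun x => φ x ∈ S)).card ≤ 2 * A.card := by
  classical
  intro T
  induction T with
  | leaf h =>
    intro _ hT
    exact Or.inl ⟨h, hT⟩
  | node l r ihl ihr =>
    intro hsm hT
    obtain ⟨h1, h2, h3, h4⟩ := hsm
    by_cases hl : 2 * A.card < 3 * (A.filter (fun x => φ x ∈ l.verts)).card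
    · exact ihl h3 hl
    by_cases hr : 2 * A.card < 3 * (A.filter (fun x => φ x ∈ r.verts)).card
    · exact ihr h4 hr
    right
    have hU : (A.filter (fun x => φ x ∈ (Layout.node l r).verts)).card ≤
        (A.filter (fun x => φ x ∈ l.verts)).card + (A.filter (fun x => φ x ∈ r.verts)).card := by
      refine le_trans (card_le_card ?_) (card_union_le _ _)
      intro x hx
      obtain ⟨hx1, hx2⟩ := mem_filter.1 hx
      rcases hx2 with hx2 | hx2
      · exact mem_union_left _ (mem_filter.2 ⟨hx1, hx2⟩)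
      · exact mem_union_right _ (mem_filter.2 ⟨hx1, hx2⟩)
    by_cases hl' : A.card ≤ 3 * (A.filter (fun x => φ x ∈ l.verts)).card
    · exact ⟨l.verts, h1, hl', by omega⟩
    · exact ⟨r.verts, h2, by omega, by omega⟩

/-- **Distances in graphs of width `k` are separable.** -/
theorem host_separable {U V : Type} [Finite U] {K : SimpleGraph U} (hK : K.Connected) {k : ℕ}
    (hw : WidthLE K k) (φ : V → U) :
    Separable (fun u v => (K.dist (φ u) (φ v) : ℝ)) (2 ^ (k + 1)) := by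
  classical
  intro X Y hX hY
  obtain ⟨T, hT, hsm⟩ := hw
  have hXpos := card_pos.2 hX
  have h0 : 2 * X.card < 3 * (X.filter (fun x => φ x ∈ T.verts)).card := by
    have : X.filter (fun x => φ x ∈ T.verts) = X :=
      filter_true_of_mem fun x _ => by rw [hT]; exact Set.mem_univ _
    rw [this]
    omega
  have hpow1 : 1 ≤ 2 ^ k := Nat.one_le_two_pow
  rcases balanced φ X T hsm h0 with ⟨h, hh⟩ | ⟨S, hS, h1, h2⟩
  · refine ⟨X.filter (fun x => φ x ∈ ({h} : Set U)), filter_subset _ _, Y, Subset.rfl, ?_, ?_,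
      fun _ => 0, fun v => (K.dist h (φ v) : ℝ), ?_⟩
    · have : 2 ^ (k + 1) = 2 * 2 ^ k := by ring
      rw [this]
      generalize (X.filter (fun x => φ x ∈ ({h} : Set U))).card = z at hh
      have hz : z ≤ 2 ^ k * z := Nat.le_mul_of_pos_left _ (by positivity)
      have : 2 * 2 ^ k * z = 2 * (2 ^ k * z) := by ring
      rw [this]
      omega
    · exact Nat.le_mul_of_pos_left _ (by positivity)
    · intro u hu v _
      have := (mem_filter.1 hu).2
      rw [Set.mem_singleton_iff] at this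
      simp only [this, zero_add]
  · have h3 : (X.filter (fun x => φ x ∈ S)).card + (X.filter (fun x => ¬ φ x ∈ S)).card = X.card :=
      card_filter_add_card_filter_not (s := X) (fun x => φ x ∈ S)
    have h4 : (Y.filter (fun x => φ x ∈ S)).card + (Y.filter (fun x => ¬ φ x ∈ S)).card = Y.card :=
      card_filter_add_card_filter_not (s := Y) (fun x => φ x ∈ S)
    have key : ∀ X1 ⊆ X, ∀ Y1 ⊆ Y, X.card ≤ 3 * X1.card → Y.card ≤ 2 * Y1.card →
        ((∀ x ∈ X1, φ x ∈ S) ∧ (∀ y ∈ Y1, φ y ∉ S) ∨ (∀ x ∈ X1, φ x ∉ S) ∧ (∀ y ∈ Y1, φ y ∈ S)) →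
        ∃ X' ⊆ X, ∃ Y' ⊆ Y, X.card ≤ 2 ^ (k + 1) * X'.card ∧ Y.card ≤ 2 ^ (k + 1) * Y'.card ∧
          Additive (fun u v => (K.dist (φ u) (φ v) : ℝ)) X' Y' := by
      intro X1 hX1 Y1 hY1 hX1c hY1c hside
      obtain ⟨X', hX', Y', hY', h5, h6, h7⟩ := cut_sep hK S hS φ X1 Y1 (nonempty_of_card hX hX1c)
        (nonempty_of_card hY hY1c) hside
      refine ⟨X', hX'.trans hX1, Y', hY'.trans hY1, ?_, ?_, h7⟩
      · have : 2 ^ (k + 1) = 2 * 2 ^ k := by ring
        rw [this]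
        nlinarith
      · have : 2 ^ (k + 1) = 2 * 2 ^ k := by ring
        rw [this]
        nlinarith
    by_cases hYS : Y.card ≤ 2 * (Y.filter (fun x => φ x ∈ S)).card
    · exact key (X.filter (fun x => ¬ φ x ∈ S)) (filter_subset _ _) (Y.filter (fun x => φ x ∈ S))
        (filter_subset _ _) (by omega) hYS
        (Or.inr ⟨fun x hx => (mem_filter.1 hx).2, fun y hy => (mem_filter.1 hy).2⟩)
    · exact key (X.filter (fun x => φ x ∈ S)) (filter_subset _ _) (Y.filter (fun x => ¬ φ x ∈ S))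
        (filter_subset _ _) h1 (by omega)
        (Or.inl ⟨fun x hx => (mem_filter.1 hx).2, fun y hy => (mem_filter.1 hy).2⟩)

end Pool.Agent.H700.LR
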