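import Pool.Agent.H700.LR.Tw
import Pool.Agent.H700.LR.Geo
import Pool.Graph.R_pool_sql_team_seeded_efc1946e.K1H68.CP.Final

/-!
# Functions of the distances in several tree-like graphs and of a sum in a finite abelian group
-/

set_option autoImplicit false

namespace Pool.Agent.H700.LR

open Finset
open Pool.Agent.Y424.LR (mat bv Rich lr bits_real rank_pos)
open Pool.Agent.H630R2.LR (Proto comm)
open Pool.Agent.K1H68.CP (pcost pcost_le final_matrix)

/-- The distance of `H` is a linear combination of the pulled back distances of `m` graphs of width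
(or treewidth) at most `k`, with `m (k + 3) ≤ κ`. -/
def TreeLike {U : Type} (H : SimpleGraph U) (κ : ℕ) : Prop :=
  ∃ (m k : ℕ) (W : Fin m → Type) (_ : ∀ i, Finite (W i)) (K : ∀ i, SimpleGraph (W i))
    (φ : ∀ i, U → W i) (w : Fin m → ℝ), (∀ i, (K i).Connected) ∧
    (∀ i, WidthLE (K i) k ∨ TreewidthLE (K i) k) ∧
    (∀ u v, (H.dist u v : ℝ) = ∑ i, w i * ((K i).dist (φ i u) (φ i v) : ℝ)) ∧ m * (k + 3) ≤ κ

theorem Separable.mono {V : Type} {δ : V → V → ℝ} {c c' : ℕ} (h : Separable δ c) (hc : c ≤ c') :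
    Separable δ c' := by
  intro X Y hX hY
  obtain ⟨X', hX', Y', hY', h1, h2, h3⟩ := h X Y hX hY
  exact ⟨X', hX', Y', hY', h1.trans (Nat.mul_le_mul_right _ hc),
    h2.trans (Nat.mul_le_mul_right _ hc), h3⟩

theorem TreeLike.separable {U V : Type} {H : SimpleGraph U} {κ : ℕ} (h : TreeLike H κ) (π : V → U) :
    Separable (fun u v => (H.dist (π u) (π v) : ℝ)) (2 ^ κ) := by
  obtain ⟨m, k, W, _, K, φ, w, hK, hw, hd, hm⟩ := h
  have hw' : ∀ i, WidthLE (K i) (k + 2) := by
    intro i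
    rcases hw i with h | h
    · exact h.mono (by omega)
    · have : Nonempty (W i) := (hK i).nonempty
      exact widthLE_of_treewidthLE h
  have h1 := separable_sum (fun i u v => ((K i).dist (φ i (π u)) (φ i (π v)) : ℝ)) w (2 ^ (k + 3))
    (fun i => host_separable (hK i) (hw' i) (fun v => φ i (π v)))
  have e : (fun u v => (H.dist (π u) (π v) : ℝ)) =
      (fun u v => ∑ i, w i * ((K i).dist (φ i (π u)) (φ i (π v)) : ℝ)) := by
    funext u v
    exact hd _ _
  rw [e]
  refine h1.mono ?_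
  rw [← pow_mul]
  exact Nat.pow_le_pow_right (by norm_num) (by rw [mul_comm]; exact hm)

/-- simultaneous additivity with different constants -/
theorem separable_many' {V ι : Type} (I : Finset ι) (δ : ι → V → V → ℝ) (κ : ι → ℕ)
    (h : ∀ i ∈ I, Separable (δ i) (2 ^ κ i)) (X Y : Finset V) (hX : X.Nonempty) (hY : Y.Nonempty) :
    ∃ X' ⊆ X, ∃ Y' ⊆ Y, X.card ≤ 2 ^ (∑ i ∈ I, κ i) * X'.card ∧
      Y.card ≤ 2 ^ (∑ i ∈ I, κ i) * Y'.card ∧ ∀ i ∈ I, Additive (δ i) X' Y' := by
  classical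
  induction I using Finset.cons_induction with
  | empty => exact ⟨X, Subset.rfl, Y, Subset.rfl, by simp, by simp, fun i hi => by simp at hi⟩
  | cons j I hj ih =>
    obtain ⟨X1, hX1, Y1, hY1, h1, h2, h3⟩ := ih (fun i hi => h i (mem_cons_of_mem hi))
    obtain ⟨X2, hX2, Y2, hY2, h4, h5, h6⟩ := h j (mem_cons_self j I) X1 Y1
      (nonempty_of_card hX h1) (nonempty_of_card hY h2)
    refine ⟨X2, hX2.trans hX1, Y2, hY2.trans hY1, ?_, ?_, ?_⟩
    · rw [sum_cons]
      calc X.card ≤ 2 ^ (∑ i ∈ I, κ i) * X1.card := h1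
        _ ≤ 2 ^ (∑ i ∈ I, κ i) * (2 ^ κ j * X2.card) := Nat.mul_le_mul_left _ h4
        _ = 2 ^ (κ j + ∑ i ∈ I, κ i) * X2.card := by ring
    · rw [sum_cons]
      calc Y.card ≤ 2 ^ (∑ i ∈ I, κ i) * Y1.card := h2
        _ ≤ 2 ^ (∑ i ∈ I, κ i) * (2 ^ κ j * Y2.card) := Nat.mul_le_mul_left _ h5
        _ = 2 ^ (κ j + ∑ i ∈ I, κ i) * Y2.card := by ring
    · intro i hi
      rcases mem_cons.1 hi with rfl | hi
      · exact h6
      · exact (h3 i hi).mono hX2 hY2

/-- the additive structure in integers, and the two end points -/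
theorem additive_ends {V U : Type} {H : SimpleGraph U} (π : V → U) {X Y : Finset V}
    (hX : X.Nonempty) (hY : Y.Nonempty)
    (h : Additive (fun u v => (H.dist (π u) (π v) : ℝ)) X Y) :
    ∃ u0 v0 : U, (∀ u ∈ X, H.dist (π u) v0 ≤ H.dist u0 v0) ∧
      (∀ v ∈ Y, H.dist u0 (π v) ≤ H.dist u0 v0) ∧
      ∀ u ∈ X, ∀ v ∈ Y, H.dist (π u) (π v) + H.dist u0 v0 = H.dist (π u) v0 + H.dist u0 (π v) := by
  obtain ⟨a, b, hab⟩ := h
  obtain ⟨u0, hu0, hu0max⟩ := exists_max_image X a hX
  obtain ⟨v0, hv0, hv0max⟩ := exists_max_image Y b hY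
  have e4 := hab u0 hu0 v0 hv0
  simp only at e4
  refine ⟨π u0, π v0, ?_, ?_, ?_⟩
  · intro u hu
    have e2 := hab u hu v0 hv0
    have l1 := hu0max u hu
    simp only at e2
    have : (H.dist (π u) (π v0) : ℝ) ≤ H.dist (π u0) (π v0) := by
      rw [e2, e4]
      linarith
    exact_mod_cast this
  · intro v hv
    have e3 := hab u0 hu0 v hv
    have l2 := hv0max v hv
    simp only at e3
    have : (H.dist (π u0) (π v) : ℝ) ≤ H.dist (π u0) (π v0) := by
      rw [e3, e4]
      linarith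
    exact_mod_cast this
  · intro u hu v hv
    have e1 := hab u hu v hv
    have e2 := hab u hu v0 hv0
    have e3 := hab u0 hu0 v hv
    simp only at e1 e2 e3
    have : (H.dist (π u) (π v) : ℝ) + H.dist (π u0) (π v0) =
        H.dist (π u) (π v0) + H.dist (π u0) (π v) := by
      rw [e1, e2, e3, e4]
      ring
    exact_mod_cast this

/-- The protocol for multilevel Toeplitz matrices over a finite abelian group. -/
theorem box_proto {n e : ℕ} (A : Type) [AddCommGroup A] [Fintype A] (gens : Fin e → A)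
    (hgens : AddSubgroup.closure (Set.range gens) = ⊤) (L : Fin n → ℕ) (g : (Fin n → ℤ) → A → Bool)
    (r : ℕ) (hr : (comm (fun (x y : (∀ i, Fin (L i + 1)) × A) =>
      g (fun i => (x.1 i : ℤ) - (y.1 i : ℤ)) (x.2 + y.2))).rank ≤ r) :
    ∃ c : ℕ, Proto (fun (x y : (∀ i, Fin (L i + 1)) × A) =>
      g (fun i => (x.1 i : ℤ) - (y.1 i : ℤ)) (x.2 + y.2)) c ∧
      (c : ℝ) ≤ (8 * (n + e) + 5) * (Real.logb 2 (r : ℝ) + 1) ^ 5 := by
  classical
  set M : ((∀ i, Fin (L i + 1)) × A) → ((∀ i, Fin (L i + 1)) × A) → Bool :=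
    fun x y => g (fun i => (x.1 i : ℤ) - (y.1 i : ℤ)) (x.2 + y.2) with hM
  obtain ⟨c, hc, hcle⟩ := final_matrix M n e (P := Unit) (fun _ => Set.univ)
    (fun x => ⟨(), Set.mem_univ _⟩) (fun _ => by
      refine ⟨A, inferInstance, inferInstance, gens, fun i => L i + 1, Unit, inferInstance,
        fun a u => (u, a), fun _ b v => (fun i => ⟨L i - v i, Nat.lt_succ_of_le (Nat.sub_le _ _)⟩, b),
        hgens, ?_, ?_, ?_⟩
      · rintro ⟨u, a⟩ _
        exact ⟨a, u, rfl⟩
      · rintro ⟨v, b⟩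
        refine ⟨(), b, fun i => ⟨L i - v i, Nat.lt_succ_of_le (Nat.sub_le _ _)⟩, ?_⟩
        refine Prod.ext ?_ rfl
        funext i
        apply Fin.ext
        simp only
        have := (v i).2
        omega
      · intro _ a a' b b' u u' v v' hab huv
        simp only [hM]
        have e1 : (fun i => ((u i : ℕ) : ℤ) - ((L i - (v i : ℕ) : ℕ) : ℤ)) =
            (fun i => ((u' i : ℕ) : ℤ) - ((L i - (v' i : ℕ) : ℕ) : ℤ)) := by
          funext i
          have h1 := huv i
          have h2 : (v i : ℕ) < L i + 1 := (v i).2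
          have h3 : (v' i : ℕ) < L i + 1 := (v' i).2
          omega
        rw [hab]
        congr 1)
  refine ⟨c, hc, hcle.trans ?_⟩
  have h0 : Real.logb 2 (Fintype.card Unit : ℝ) = 0 := by simp
  rw [h0, add_zero]
  have h1 : Real.logb 2 ((comm M).rank : ℝ) ≤ Real.logb 2 (r : ℝ) := by
    rcases Nat.eq_zero_or_pos (comm M).rank with h | h
    · rw [h, Nat.cast_zero, Real.logb_zero]
      exact Pool.Agent.H630R2.LR.logb_nonneg _
    · exact Real.logb_le_logb_of_le (by norm_num) (by exact_mod_cast h) (by exact_mod_cast hr)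
  have h2 := Pool.Agent.H630R2.LR.logb_nonneg (comm M).rank
  gcongr

/-- the bits for the multilevel Toeplitz part -/
noncomputable def mtoep (t r : ℕ) : ℕ := ⌊(8 * (t : ℝ) + 5) * (Real.logb 2 (r : ℝ) + 1) ^ 5⌋₊

/-- **Functions of several distances and a sum have large constant rectangles.** -/
theorem rich_multi {n e : ℕ} (U : Fin n → Type) [∀ j, Fintype (U j)] (H : ∀ j, SimpleGraph (U j))
    (hH : ∀ j, (H j).Connected) (κ : Fin n → ℕ) (hκ : ∀ j, TreeLike (H j) (κ j))
    (A : Type) [AddCommGroup A] [Fintype A] (gens : Fin e → A)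
    (hgens : AddSubgroup.closure (Set.range gens) = ⊤) (g : (Fin n → ℕ) → A → Bool)
    (F : ((∀ j, U j) × A) → ((∀ j, U j) × A) → Bool)
    (hF : ∀ x y, F x y = g (fun j => (H j).dist (x.1 j) (y.1 j)) (x.2 + y.2)) :
    Rich F (2 ^ (∑ j, κ j) * 2 ^ mtoep (n + e) (comm F).rank) := by
  classical
  intro X Y hX hY
  obtain ⟨X1, hX1, Y1, hY1, h1, h2, hadd⟩ := separable_many' univ
    (fun (j : Fin n) (x y : (∀ j, U j) × A) => ((H j).dist (x.1 j) (y.1 j) : ℝ)) κ
    (fun j _ => (hκ j).separable (fun x : (∀ j, U j) × A => x.1 j)) X Y hX hY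
  have hX1n := nonempty_of_card hX h1
  have hY1n := nonempty_of_card hY h2
  choose u0 v0 hu hv huv using fun j => additive_ends (H := H j)
    (fun x : (∀ j, U j) × A => x.1 j) hX1n hY1n (hadd j (mem_univ j))
  choose p hp0 hpL hp using fun j => exists_geodesic (hH j) (u0 j) (v0 j)
  let L : Fin n → ℕ := fun j => (H j).dist (u0 j) (v0 j)
  let gz : (Fin n → ℤ) → A → Bool := fun z a => g (fun j => (z j).natAbs) a
  let emb : ((∀ j, Fin (L j + 1)) × A) → ((∀ j, U j) × A) := fun x => (fun j => p j (x.1 j), x.2)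
  have hM : ∀ x y : (∀ j, Fin (L j + 1)) × A,
      gz (fun i => (x.1 i : ℤ) - (y.1 i : ℤ)) (x.2 + y.2) = F (emb x) (emb y) := by
    intro x y
    rw [hF]
    simp only [gz, emb]
    congr 1
    funext j
    have hi := (x.1 j).2
    have hj := (y.1 j).2
    simp only [L] at hi hj
    rcases le_total (x.1 j : ℕ) (y.1 j : ℕ) with hij | hij
    · rw [hp j _ _ hij (by omega)]
      omega
    · rw [SimpleGraph.dist_comm, hp j _ _ hij (by omega)]
      omega
  obtain ⟨d, hd, hdle⟩ := box_proto A gens hgens L gz (comm F).rank (by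
    have : comm (fun (x y : (∀ i, Fin (L i + 1)) × A) =>
        gz (fun i => (x.1 i : ℤ) - (y.1 i : ℤ)) (x.2 + y.2)) = (comm F).submatrix emb emb := by
      ext x y
      show (if gz (fun i => (x.1 i : ℤ) - (y.1 i : ℤ)) (x.2 + y.2) then (1 : ℝ) else 0) =
        (if F (emb x) (emb y) then (1 : ℝ) else 0)
      rw [hM]
    rw [this]
    exact Matrix.rank_submatrix_le _ _ _)
  have hdt : d ≤ mtoep (n + e) (comm F).rank := by
    refine Nat.le_floor ?_
    push_cast
    exact hdle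
  obtain ⟨X2, hX2, Y2, hY2, h3, h4, b', hb'⟩ := rect_of_proto hd
    (fun x : (∀ j, U j) × A => ((fun j => (⟨L j - (H j).dist (x.1 j) (v0 j), by omega⟩ :
      Fin (L j + 1))), x.2))
    (fun y : (∀ j, U j) × A => ((fun j => (⟨(H j).dist (u0 j) (y.1 j) ⊓ L j, by omega⟩ :
      Fin (L j + 1))), y.2)) X1 Y1
  have hpow : 2 ^ d ≤ 2 ^ mtoep (n + e) (comm F).rank := Nat.pow_le_pow_right (by norm_num) hdt
  refine ⟨X2, hX2.trans hX1, Y2, hY2.trans hY1, ?_, ?_, b', fun x hx y hy => ?_⟩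
  · calc X.card ≤ 2 ^ (∑ j, κ j) * X1.card := h1
      _ ≤ 2 ^ (∑ j, κ j) * (2 ^ mtoep (n + e) (comm F).rank * X2.card) :=
        Nat.mul_le_mul_left _ (h3.trans (Nat.mul_le_mul_right _ hpow))
      _ = 2 ^ (∑ j, κ j) * 2 ^ mtoep (n + e) (comm F).rank * X2.card := by ring
  · calc Y.card ≤ 2 ^ (∑ j, κ j) * Y1.card := h2
      _ ≤ 2 ^ (∑ j, κ j) * (2 ^ mtoep (n + e) (comm F).rank * Y2.card) :=
        Nat.mul_le_mul_left _ (h4.trans (Nat.mul_le_mul_right _ hpow))
      _ = 2 ^ (∑ j, κ j) * 2 ^ mtoep (n + e) (comm F).rank * Y2.card := by ring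
  · rw [← hb' x hx y hy, hF]
    simp only [gz]
    congr 1
    funext j
    have e1 := huv j x (hX2 hx) y (hY2 hy)
    have e2 := hu j x (hX2 hx)
    have e3 := hv j y (hY2 hy)
    simp only [L]
    omega

end Pool.Agent.H700.LR
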