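import Pool.Graph.R_pool_sql_team_seeded_1acbe0a2.Y424.PP.Main
import Pool.Graph.R_seed8.H630R2.LR.Bounds

/-!
# Rectangles from protocols, pure pairs with twins
-/

set_option autoImplicit false

namespace Pool.Agent.H700.LR

open Finset
open Pool.Agent.Y424.LR (mat bv)
open Pool.Agent.Y424.PP (HasPure)
open Pool.Agent.H630R2.LR (Proto comm)

/-- one of the two halves is large -/
theorem half {U : Type} (A : Finset U) (s : U → Bool) :
    ∃ b, A.card ≤ 2 * (A.filter (fun x => s x = b)).card := by
  classical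
  have h1 : (A.filter (fun x => s x = true)).card + (A.filter (fun x => ¬ s x = true)).card =
      A.card := card_filter_add_card_filter_not (s := A) (fun x => s x = true)
  have h2 : (A.filter (fun x => ¬ s x = true)) = A.filter (fun x => s x = false) := by
    refine filter_congr fun x _ => ?_
    simp
  rw [h2] at h1
  by_cases h : A.card ≤ 2 * (A.filter (fun x => s x = true)).card
  · exact ⟨true, h⟩
  · exact ⟨false, by omega⟩

/-- A protocol gives large constant rectangles for every pair of (weighted) sets. -/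
theorem rect_of_proto {X Y : Type} {F : X → Y → Bool} {c : ℕ} (h : Proto F c) {U W : Type}
    (p : U → X) (q : W → Y) (A : Finset U) (B : Finset W) :
    ∃ A' ⊆ A, ∃ B' ⊆ B, A.card ≤ 2 ^ c * A'.card ∧ B.card ≤ 2 ^ c * B'.card ∧
      ∃ b, ∀ x ∈ A', ∀ y ∈ B', F (p x) (q y) = b := by
  classical
  obtain ⟨owner, a, b, out, hout⟩ := h
  have key : ∀ n : ℕ, ∃ t : List Bool, ∃ A' ⊆ A, ∃ B' ⊆ B, A.card ≤ 2 ^ n * A'.card ∧
      B.card ≤ 2 ^ n * B'.card ∧ ∀ x ∈ A', ∀ y ∈ B',
      Nat.iterate (fun t : List Bool => t ++ [if owner t then a t (p x) else b t (q y)]) n [] = t := by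
    intro n
    induction n with
    | zero =>
      exact ⟨[], A, Subset.rfl, B, Subset.rfl, by simp, by simp, fun _ _ _ _ => rfl⟩
    | succ n ih =>
      obtain ⟨t, A', hA', B', hB', h1, h2, h3⟩ := ih
      by_cases ho : owner t = true
      · obtain ⟨v, hv⟩ := half A' (fun x => a t (p x))
        refine ⟨t ++ [v], A'.filter (fun x => a t (p x) = v), (filter_subset _ _).trans hA', B', hB',
          ?_, ?_, ?_⟩
        · calc A.card ≤ 2 ^ n * A'.card := h1
            _ ≤ 2 ^ n * (2 * (A'.filter (fun x => a t (p x) = v)).card) := Nat.mul_le_mul_left _ hv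
            _ = 2 ^ (n + 1) * (A'.filter (fun x => a t (p x) = v)).card := by ring
        · calc B.card ≤ 2 ^ n * B'.card := h2
            _ ≤ 2 ^ (n + 1) * B'.card := Nat.mul_le_mul_right _ (Nat.pow_le_pow_right (by norm_num) (by omega))
        · intro x hx y hy
          obtain ⟨hx1, hx2⟩ := mem_filter.1 hx
          rw [Function.iterate_succ_apply', h3 x hx1 y hy]
          simp only [ho, if_true, hx2]
      · obtain ⟨v, hv⟩ := half B' (fun y => b t (q y))
        refine ⟨t ++ [v], A', hA', B'.filter (fun y => b t (q y) = v), (filter_subset _ _).trans hB',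
          ?_, ?_, ?_⟩
        · calc A.card ≤ 2 ^ n * A'.card := h1
            _ ≤ 2 ^ (n + 1) * A'.card := Nat.mul_le_mul_right _ (Nat.pow_le_pow_right (by norm_num) (by omega))
        · calc B.card ≤ 2 ^ n * B'.card := h2
            _ ≤ 2 ^ n * (2 * (B'.filter (fun y => b t (q y) = v)).card) := Nat.mul_le_mul_left _ hv
            _ = 2 ^ (n + 1) * (B'.filter (fun y => b t (q y) = v)).card := by ring
        · intro x hx y hy
          obtain ⟨hy1, hy2⟩ := mem_filter.1 hy
          rw [Function.iterate_succ_apply', h3 x hx y hy1]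
          simp only [ho, hy2]
          simp
  obtain ⟨t, A', hA', B', hB', h1, h2, h3⟩ := key c
  refine ⟨A', hA', B', hB', h1, h2, out t, fun x hx y hy => ?_⟩
  rw [← hout (p x) (q y), h3 x hx y hy]

theorem mat_eq_comm {X Y : Type} [Fintype X] [Fintype Y] (F : X → Y → Bool) : mat F = comm F := by
  ext x y
  rfl

/-- **Colouring with twins.** -/
theorem main_twins {V : Type} [Fintype V] {F : V → V → Bool} (hsym : ∀ x y, F x y = F y x)
    (hirr : ∀ x, F x x = false) {c : ℕ} (hc : 1 ≤ c) (hF : HasPure F c) :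
    ∃ f : V → ℕ, (∀ x, f x < c ^ (Nat.log 2 (mat F).rank + 1) * ((mat F).rank + 1)) ∧
      ∀ x y, f x = f y → F x y = false := by
  classical
  -- representatives of the rows
  rcases isEmpty_or_nonempty V with hV | hV
  · exact ⟨fun _ => 0, fun x => (hV.false x).elim, fun x => (hV.false x).elim⟩
  let rep : V → V := fun x => Function.invFun F (F x)
  have hrep : ∀ x, F (rep x) = F x := fun x => Function.invFun_eq (f := F) ⟨x, rfl⟩
  have hrep' : ∀ x y, F (rep x) (rep y) = F x y := by
    intro x y
    rw [hrep x, hsym x (rep y), hrep y, hsym y x]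
  have hrr : ∀ x y, F x = F y → rep x = rep y := by
    intro x y h
    simp only [rep]
    rw [h]
  let S : Type := {x : V // rep x = x}
  have hS : ∀ x, rep (rep x) = rep x := fun x => hrr _ _ (hrep x)
  let r : V → S := fun x => ⟨rep x, hS x⟩
  let F' : S → S → Bool := fun x y => F x.1 y.1
  have hF' : HasPure F' c := by
    intro A hA
    obtain ⟨x, hx, y, hy, hxy⟩ := hA
    obtain ⟨X, hX, Y, hY, h1, h2, b, hb⟩ := hF (A.map ⟨Subtype.val, Subtype.val_injective⟩)
      ⟨x.1, by simp [hx], y.1, by simp [hy], hxy⟩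
    have hpre : ∀ Z : Finset V, Z ⊆ A.map ⟨Subtype.val, Subtype.val_injective⟩ →
        ∃ Z' : Finset S, Z' ⊆ A ∧ Z'.card = Z.card ∧ ∀ z ∈ Z', z.1 ∈ Z := by
      intro Z hZ
      refine ⟨A.filter (fun z => z.1 ∈ Z), filter_subset _ _, ?_, fun z hz => (mem_filter.1 hz).2⟩
      rw [← card_map ⟨Subtype.val, Subtype.val_injective⟩]
      congr 1
      ext z
      simp only [mem_map, mem_filter, Function.Embedding.coeFn_mk]
      constructor
      · rintro ⟨w, ⟨_, hw⟩, rfl⟩
        exact hw
      · intro hz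
        have := hZ hz
        simp only [mem_map, Function.Embedding.coeFn_mk] at this
        obtain ⟨w, hw, rfl⟩ := this
        exact ⟨w, ⟨hw, hz⟩, rfl⟩
    obtain ⟨X', hX', hX1, hX2⟩ := hpre X hX
    obtain ⟨Y', hY', hY1, hY2⟩ := hpre Y hY
    rw [card_map] at h1 h2
    exact ⟨X', hX', Y', hY', by rw [hX1]; exact h1, by rw [hY1]; exact h2, b,
      fun x hx y hy => hb _ (hX2 x hx) _ (hY2 y hy)⟩
  have htw : ∀ x y : S, F' x = F' y → x = y := by
    intro x y h
    have h1 : F x.1 = F y.1 := by
      funext z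
      have h2 : F x.1 (rep z) = F y.1 (rep z) := congrFun h ⟨rep z, hS z⟩
      rw [hsym x.1 (rep z), hrep, hsym y.1 (rep z), hrep] at h2
      rw [hsym x.1 z, hsym y.1 z]
      exact h2
    have h3 := hrr _ _ h1
    apply Subtype.ext
    rw [← x.2, ← y.2]
    exact h3
  obtain ⟨f, hf1, hf2⟩ := Pool.Agent.Y424.PP.main (F := F') (fun x y => hsym _ _)
    (fun x => hirr _) htw hc hF'
  have hrk : (mat F').rank ≤ (mat F).rank := by
    have : mat F' = (mat F).submatrix (fun x : S => x.1) (fun x : S => x.1) := rfl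
    rw [this]
    exact Matrix.rank_submatrix_le _ _ _
  refine ⟨fun x => f (r x), fun x => (hf1 _).trans_le ?_, fun x y h => ?_⟩
  · exact Nat.mul_le_mul (Nat.pow_le_pow_right hc
      (Nat.add_le_add_right (Nat.log_mono_right hrk) 1)) (Nat.add_le_add_right hrk 1)
  · rw [← hrep' x y]
    exact hf2 _ _ h

end Pool.Agent.H700.LR
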