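import Pool.Graph.R_pool_sql_team_seeded_b0a926ef.R533.VC.Fin
import Pool.Agent.H700.LR.Bound

/-!
# Small bounded-error probability and small VC dimension
-/

set_option autoImplicit false

namespace Pool.Agent.H700.LR

open Finset
open Pool.Agent.Y424.LR (mat bv)
open Pool.Agent.Y424.PP (HasPure)
open Pool.Agent.R533.VC (Growth growth_comp cover pack dif)

/-- `2 (g - 1) ^ g ≤ g ^ g` -/
theorem gap_pow (g : ℕ) (hg : 1 ≤ g) : 2 * (1 - 1 / (g : ℝ)) ^ g ≤ 1 := by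
  have hg0 : (1 : ℝ) ≤ g := by exact_mod_cast hg
  have hg1 : (0 : ℝ) < g := by linarith
  have h1 : 1 - 1 / (g : ℝ) ≤ Real.exp (-(1 / (g : ℝ))) := by
    have := Real.add_one_le_exp (-(1 / (g : ℝ)))
    linarith
  have h2 : 0 ≤ 1 - 1 / (g : ℝ) := by
    have : 1 / (g : ℝ) ≤ 1 := by
      rw [div_le_one hg1]
      exact hg0
    linarith
  have h3 : (1 - 1 / (g : ℝ)) ^ g ≤ (Real.exp (-(1 / (g : ℝ)))) ^ g := pow_le_pow_left₀ h2 h1 g
  have h4 : (Real.exp (-(1 / (g : ℝ)))) ^ g = Real.exp (-1) := by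
    rw [← Real.exp_nat_mul]
    congr 1
    field_simp
  rw [h4] at h3
  have h5 : Real.exp (-1) ≤ 1 / 2 := by
    rw [Real.exp_neg]
    have : (2 : ℝ) ≤ Real.exp 1 := by
      have := Real.add_one_le_exp (1 : ℝ)
      linarith
    rw [inv_eq_one_div]
    exact one_div_le_one_div_of_le (by norm_num) this
  linarith

set_option maxHeartbeats 1000000 in
/-- **Amplification and clustering.** A dense function with a small bounded-error acceptance
probability by functions of polynomial growth is nearly true on a large rectangle. -/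
theorem sbp_rect {X Y Ω : Type} [Fintype Ω] [Nonempty Ω] (F : X → Y → Prop)
    (f : Ω → X → Y → Bool) (D R g ℓ ρ T : ℕ) (α : ℝ) (hα : 0 < α)
    (hf : ∀ ω, Growth (f ω) D) (A : Finset X) (B : Finset Y) [∀ x y, Decidable (F x y)]
    (hA : A.Nonempty) (hB : B.Nonempty)
    (h1 : ∀ x ∈ A, ∀ y ∈ B, F x y →
      α * (Fintype.card Ω : ℝ) ≤ ((univ.filter (fun ω => f ω x y = true)).card : ℝ))
    (h0 : ∀ x ∈ A, ∀ y ∈ B, ¬ F x y →
      ((univ.filter (fun ω => f ω x y = true)).card : ℝ) ≤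
        (1 - 1 / (g : ℝ)) * (α * (Fintype.card Ω : ℝ)))
    (hg : 1 ≤ g) (hR : 1 ≤ R)
    (hdens : A.card * B.card ≤ 4 * R * ((A ×ˢ B).filter (fun p => F p.1 p.2)).card)
    (hℓ : 1 ≤ α * 2 ^ ℓ) (hρ : R ≤ 2 ^ ρ)
    (hT : 2 * (g * (2 * ρ + 5) * D) ≤ 2 ^ T) :
    ∃ A' ⊆ A, ∃ B' ⊆ B, A.card * B.card ≤
      2 ^ (2 * (g * (2 * ρ + 5) * D) * (2 * ρ + 8 + ℓ * (g * (2 * ρ + 5)) + T) + 6 + ρ +
        ℓ * (g * (2 * ρ + 5))) * (A'.card * B'.card) ∧
      4 * R * ((A' ×ˢ B').filter (fun p => ¬ F p.1 p.2)).card ≤ A'.card * B'.card := by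
  classical
  obtain ⟨t, ht⟩ : ∃ t, t = g * (2 * ρ + 5) := ⟨_, rfl⟩
  rw [← ht] at hT ⊢
  have hN : (0 : ℝ) < (Fintype.card Ω : ℝ) := by exact_mod_cast Fintype.card_pos
  obtain ⟨N, hNe⟩ : ∃ N : ℝ, N = (Fintype.card Ω : ℝ) := ⟨_, rfl⟩
  rw [← hNe] at h1 h0 hN
  obtain ⟨ab, hab⟩ : ∃ ab : ℕ, ab = A.card * B.card := ⟨_, rfl⟩
  have habpos : 0 < ab := by
    rw [hab]
    exact Nat.mul_pos (card_pos.2 hA) (card_pos.2 hB)
  obtain ⟨n1, hn1⟩ : ∃ n1 : ℕ, n1 = ((A ×ˢ B).filter (fun p => F p.1 p.2)).card := ⟨_, rfl⟩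
  rw [← hab, ← hn1] at hdens
  rw [← hab]
  have hdens' : (ab : ℝ) ≤ 4 * R * n1 := by exact_mod_cast hdens
  have hRr : (1 : ℝ) ≤ R := by exact_mod_cast hR
  have habr : (0 : ℝ) < ab := by exact_mod_cast habpos
  have hn1pos : (0 : ℝ) < n1 := by
    by_contra h
    push Not at h
    have : 4 * (R : ℝ) * n1 ≤ 0 := by nlinarith
    linarith
  -- the powers of acceptance
  let h : (Fin t → Ω) → X → Y → Bool := fun σ x y => decide (∀ i, f (σ i) x y = true)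
  have hacc : ∀ x y, (univ.filter (fun σ : Fin t → Ω => h σ x y = true)).card =
      (univ.filter (fun ω => f ω x y = true)).card ^ t := by
    intro x y
    have e : (univ.filter (fun σ : Fin t → Ω => h σ x y = true)) =
        Fintype.piFinset (fun _ : Fin t => univ.filter (fun ω => f ω x y = true)) := by
      ext σ
      simp [h, Fintype.mem_piFinset]
    rw [e, Fintype.card_piFinset_const]
  -- counting
  let S1 : (Fin t → Ω) → ℝ := fun σ =>
    ((((A ×ˢ B).filter (fun p => F p.1 p.2)).filter (fun p => h σ p.1 p.2 = true)).card : ℝ)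
  let S0 : (Fin t → Ω) → ℝ := fun σ =>
    ((((A ×ˢ B).filter (fun p => ¬ F p.1 p.2)).filter (fun p => h σ p.1 p.2 = true)).card : ℝ)
  have hswap : ∀ S : Finset (X × Y), ∑ σ : Fin t → Ω, ((S.filter (fun p => h σ p.1 p.2 = true)).card : ℝ) =
      ∑ p ∈ S, ((univ.filter (fun ω => f ω p.1 p.2 = true)).card : ℝ) ^ t := by
    intro S
    have e1 : ∀ p ∈ S, ((univ.filter (fun ω => f ω p.1 p.2 = true)).card : ℝ) ^ t =
        ∑ σ : Fin t → Ω, (if h σ p.1 p.2 = true then (1 : ℝ) else 0) := by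
      intro p _
      rw [← Nat.cast_pow, ← hacc, Finset.card_filter]
      push_cast
      rfl
    rw [sum_congr rfl e1, sum_comm]
    refine sum_congr rfl fun σ _ => ?_
    rw [Finset.card_filter]
    push_cast
    rfl
  have hαN : 0 < α * N := mul_pos hα hN
  have hg0 : (1 : ℝ) ≤ g := by exact_mod_cast hg
  have hgap0 : 0 ≤ 1 - 1 / (g : ℝ) := by
    have : 1 / (g : ℝ) ≤ 1 := by
      rw [div_le_one (by linarith)]
      exact hg0
    linarith
  have hsum1 : (n1 : ℝ) * (α * N) ^ t ≤ ∑ σ, S1 σ := by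
    rw [hswap]
    rw [hn1, ← nsmul_eq_mul, ← sum_const]
    refine sum_le_sum fun p hp => ?_
    obtain ⟨hp1, hp2⟩ := mem_filter.1 hp
    rw [mem_product] at hp1
    exact pow_le_pow_left₀ hαN.le (h1 p.1 hp1.1 p.2 hp1.2 hp2) t
  have hgapt : 2 ^ (2 * ρ + 5) * (1 - 1 / (g : ℝ)) ^ t ≤ 1 := by
    rw [ht, pow_mul, ← mul_pow]
    exact pow_le_one₀ (by positivity) (gap_pow g hg)
  have hsum0 : 32 * (R : ℝ) ^ 2 * ∑ σ, S0 σ ≤ (ab : ℝ) * (α * N) ^ t := by
    rw [hswap]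
    have e1 : ∑ p ∈ (A ×ˢ B).filter (fun p => ¬ F p.1 p.2),
        ((univ.filter (fun ω => f ω p.1 p.2 = true)).card : ℝ) ^ t ≤
        ∑ p ∈ (A ×ˢ B).filter (fun p => ¬ F p.1 p.2), ((1 - 1 / (g : ℝ)) * (α * N)) ^ t := by
      refine sum_le_sum fun p hp => ?_
      obtain ⟨hp1, hp2⟩ := mem_filter.1 hp
      rw [mem_product] at hp1
      exact pow_le_pow_left₀ (Nat.cast_nonneg _) (h0 p.1 hp1.1 p.2 hp1.2 hp2) t
    have e2 : ∑ p ∈ (A ×ˢ B).filter (fun p => ¬ F p.1 p.2), ((1 - 1 / (g : ℝ)) * (α * N)) ^ t ≤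
        (ab : ℝ) * ((1 - 1 / (g : ℝ)) * (α * N)) ^ t := by
      rw [sum_const, nsmul_eq_mul]
      refine mul_le_mul_of_nonneg_right ?_ (by positivity)
      have : ((A ×ˢ B).filter (fun p => ¬ F p.1 p.2)).card ≤ ab := by
        rw [hab, ← card_product]
        exact card_filter_le _ _
      exact_mod_cast this
    have e3 : 32 * (R : ℝ) ^ 2 ≤ 2 ^ (2 * ρ + 5) := by
      have h5 : (R : ℝ) ≤ 2 ^ ρ := by exact_mod_cast hρ
      have h6 : (R : ℝ) ^ 2 ≤ (2 ^ ρ) ^ 2 := pow_le_pow_left₀ (by linarith) h5 2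
      have h7 : (2 : ℝ) ^ (2 * ρ + 5) = 32 * (2 ^ ρ) ^ 2 := by
        rw [pow_add, ← pow_mul, mul_comm ρ 2]
        norm_num
        ring
      rw [h7]
      linarith
    calc 32 * (R : ℝ) ^ 2 * _ ≤ 32 * (R : ℝ) ^ 2 * ((ab : ℝ) * ((1 - 1 / (g : ℝ)) * (α * N)) ^ t) :=
          mul_le_mul_of_nonneg_left (e1.trans e2) (by positivity)
      _ ≤ 2 ^ (2 * ρ + 5) * ((ab : ℝ) * ((1 - 1 / (g : ℝ)) * (α * N)) ^ t) :=
          mul_le_mul_of_nonneg_right e3 (by positivity)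
      _ = (2 ^ (2 * ρ + 5) * (1 - 1 / (g : ℝ)) ^ t) * ((ab : ℝ) * (α * N) ^ t) := by
          rw [mul_pow]
          ring
      _ ≤ 1 * ((ab : ℝ) * (α * N) ^ t) := mul_le_mul_of_nonneg_right hgapt (by positivity)
      _ = (ab : ℝ) * (α * N) ^ t := one_mul _
  -- a good tuple
  obtain ⟨η, hη⟩ : ∃ η : ℝ, η = α ^ t * n1 / 2 := ⟨_, rfl⟩
  have hηpos : 0 < η := by
    rw [hη]
    positivity
  obtain ⟨σ, hσ⟩ : ∃ σ, η ≤ S1 σ - 4 * R * S0 σ := by
    have hsum : ∑ _σ : Fin t → Ω, η ≤ ∑ σ, (S1 σ - 4 * R * S0 σ) := by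
      rw [sum_sub_distrib, ← mul_sum, sum_const, nsmul_eq_mul, card_univ, Fintype.card_fun,
        Fintype.card_fin]
      push_cast
      rw [← hNe]
      have e1 : 4 * (R : ℝ) * ∑ σ, S0 σ ≤ (n1 : ℝ) * (α * N) ^ t / 2 := by
        have e2 : (8 * (R : ℝ)) * (4 * (R : ℝ) * ∑ σ, S0 σ) ≤ (8 * (R : ℝ)) * ((n1 : ℝ) * (α * N) ^ t / 2) := by
          calc (8 * (R : ℝ)) * (4 * (R : ℝ) * ∑ σ, S0 σ) = 32 * (R : ℝ) ^ 2 * ∑ σ, S0 σ := by ring
            _ ≤ (ab : ℝ) * (α * N) ^ t := hsum0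
            _ ≤ (4 * R * n1) * (α * N) ^ t := mul_le_mul_of_nonneg_right hdens' (by positivity)
            _ = (8 * (R : ℝ)) * ((n1 : ℝ) * (α * N) ^ t / 2) := by ring
        exact le_of_mul_le_mul_left e2 (by positivity)
      have e3 : N ^ t * η = (n1 : ℝ) * (α * N) ^ t / 2 := by
        rw [hη, mul_pow]
        ring
      rw [e3]
      linarith
    obtain ⟨σ, _, hσ⟩ := exists_le_of_sum_le univ_nonempty hsum
    exact ⟨σ, hσ⟩
  -- clustering
  have hgr : Growth (h σ) (t * D) := by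
    have := growth_comp t (fun i => f (σ i)) (fun _ => D) (fun i => hf (σ i))
      (fun _ c => decide (∀ i, c i = true))
    simpa [h] using this
  obtain ⟨s, hs⟩ : ∃ s, s = 2 * ρ + 8 + ℓ * t := ⟨_, rfl⟩
  obtain ⟨e, he⟩ : ∃ e, e = 2 ^ (2 * ρ + 7 + ℓ * t) := ⟨_, rfl⟩
  have he1 : 1 ≤ e := by
    rw [he]
    exact Nat.one_le_two_pow
  obtain ⟨P, hsep, cen, hcen⟩ := cover (h σ) A B e
  have hPc := pack (h σ) (t * D) hgr A hA P e he1 hsep s T (by
    rw [he, hs]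
    have : 2 * ρ + 8 + ℓ * t = (2 * ρ + 7 + ℓ * t) + 1 := by ring
    rw [this, pow_succ]
    omega) (by
    exact hT)
  -- errors
  let E : ℕ := ((A ×ˢ B).filter (fun p => h σ p.1 p.2 ≠ h σ p.1 (cen p.2))).card
  have hE : e * E ≤ ab := by
    have e1 : E = ∑ y ∈ B, dif (h σ) A y (cen y) := by
      simp only [E]
      rw [card_filter, sum_product_right]
      refine sum_congr rfl fun y _ => ?_
      unfold dif
      rw [card_filter]
    rw [e1, mul_sum, hab]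
    calc ∑ y ∈ B, e * dif (h σ) A y (cen y) ≤ ∑ _y ∈ B, A.card :=
          sum_le_sum fun y hy => (hcen y hy).2
      _ = A.card * B.card := by rw [sum_const, smul_eq_mul, mul_comm]
  let O1 : ℕ := (((A ×ˢ B).filter (fun p => F p.1 p.2)).filter (fun p => h σ p.1 (cen p.2) = true)).card
  let O0 : ℕ := (((A ×ˢ B).filter (fun p => ¬ F p.1 p.2)).filter (fun p => h σ p.1 (cen p.2) = true)).card
  have hO1 : S1 σ ≤ O1 + E := by
    have : (((A ×ˢ B).filter (fun p => F p.1 p.2)).filter (fun p => h σ p.1 p.2 = true)).card ≤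
        O1 + E := by
      refine le_trans (card_le_card ?_) (card_union_le _ _)
      intro p hp
      obtain ⟨hp1, hp2⟩ := mem_filter.1 hp
      by_cases hpe : h σ p.1 (cen p.2) = true
      · exact mem_union_left _ (mem_filter.2 ⟨hp1, hpe⟩)
      · refine mem_union_right _ (mem_filter.2 ⟨(mem_filter.1 hp1).1, ?_⟩)
        rw [hp2]
        exact fun h' => hpe h'.symm
    have h' : ((((A ×ˢ B).filter (fun p => F p.1 p.2)).filter
        (fun p => h σ p.1 p.2 = true)).card : ℝ) ≤ ((O1 + E : ℕ) : ℝ) := Nat.cast_le.2 this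
    rw [Nat.cast_add] at h'
    exact h'
  have hO0 : (O0 : ℝ) ≤ S0 σ + E := by
    have : O0 ≤ (((A ×ˢ B).filter (fun p => ¬ F p.1 p.2)).filter (fun p => h σ p.1 p.2 = true)).card +
        E := by
      refine le_trans (card_le_card ?_) (card_union_le _ _)
      intro p hp
      obtain ⟨hp1, hp2⟩ := mem_filter.1 hp
      by_cases hpe : h σ p.1 p.2 = true
      · exact mem_union_left _ (mem_filter.2 ⟨hp1, hpe⟩)
      · refine mem_union_right _ (mem_filter.2 ⟨(mem_filter.1 hp1).1, ?_⟩)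
        rw [hp2]
        exact hpe
    have h' : (O0 : ℝ) ≤ (((((A ×ˢ B).filter (fun p => ¬ F p.1 p.2)).filter
        (fun p => h σ p.1 p.2 = true)).card + E : ℕ) : ℝ) := Nat.cast_le.2 this
    rw [Nat.cast_add] at h'
    exact h'
  let Sp : Y → Finset X := fun q => A.filter (fun x => h σ x q = true)
  let Bp : Y → Finset Y := fun q => B.filter (fun y => cen y = q)
  have hpart : ∀ Q : X → Y → Prop, [∀ x y, Decidable (Q x y)] →
      (((A ×ˢ B).filter (fun p => Q p.1 p.2)).filter (fun p => h σ p.1 (cen p.2) = true)).card =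
      ∑ q ∈ P, ((Sp q ×ˢ Bp q).filter (fun p => Q p.1 p.2)).card := by
    intro Q _
    rw [← card_biUnion]
    · congr 1
      ext ⟨x, y⟩
      simp only [mem_filter, mem_product, mem_biUnion, Sp, Bp]
      constructor
      · rintro ⟨⟨⟨hx, hy⟩, hQ⟩, hh⟩
        exact ⟨cen y, (hcen y hy).1, ⟨⟨hx, hh⟩, hy, rfl⟩, hQ⟩
      · rintro ⟨q, _, ⟨⟨hx, hh⟩, hy, rfl⟩, hQ⟩
        exact ⟨⟨⟨hx, hy⟩, hQ⟩, hh⟩
    · intro q _ q' _ hqq
      rw [Function.onFun, disjoint_left]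
      rintro ⟨x, y⟩ hp hp'
      simp only [mem_filter, mem_product, Bp] at hp hp'
      exact hqq (hp.1.2.2.symm.trans hp'.1.2.2)
  have hpow2 : (1 : ℝ) ≤ α ^ t * 2 ^ (ℓ * t) := by
    rw [pow_mul, ← mul_pow]
    exact one_le_pow₀ hℓ
  have hη2 : (ab : ℝ) ≤ η * (8 * R * 2 ^ (ℓ * t)) := by
    have hx : (0:ℝ) ≤ 4 * R * n1 := by positivity
    calc (ab : ℝ) ≤ 4 * R * n1 := hdens'
      _ ≤ 4 * R * n1 * (α ^ t * 2 ^ (ℓ * t)) := le_mul_of_one_le_right hx hpow2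
      _ = η * (8 * R * 2 ^ (ℓ * t)) := by rw [hη]; ring
  have hErr : (1 + 4 * (R : ℝ)) * E ≤ η / 2 := by
    have e1 : (e : ℝ) * E ≤ ab := by exact_mod_cast hE
    have e2 : (R : ℝ) ^ 2 ≤ 2 ^ (2 * ρ) := by
      have h5 : (R : ℝ) ≤ 2 ^ ρ := by exact_mod_cast hρ
      have h6 : (R : ℝ) ^ 2 ≤ (2 ^ ρ) ^ 2 := pow_le_pow_left₀ (by linarith) h5 2
      rwa [← pow_mul, mul_comm ρ 2] at h6
    have e3 : (80 : ℝ) * R ^ 2 * 2 ^ (ℓ * t) ≤ e := by
      rw [he]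
      push_cast
      rw [pow_add, pow_add]
      have : (0 : ℝ) < 2 ^ (ℓ * t) := by positivity
      nlinarith
    have hE0 : (0 : ℝ) ≤ E := Nat.cast_nonneg _
    have hz : (0 : ℝ) < 2 ^ (ℓ * t) := by positivity
    have e4 : (80 : ℝ) * R ^ 2 * 2 ^ (ℓ * t) * E ≤ η * (8 * R * 2 ^ (ℓ * t)) :=
      (mul_le_mul_of_nonneg_right e3 hE0).trans (e1.trans hη2)
    have e5 : (8 * R * 2 ^ (ℓ * t)) * (10 * R * E) ≤ (8 * R * 2 ^ (ℓ * t)) * η := by
      calc (8 * R * 2 ^ (ℓ * t)) * (10 * R * E) = (80 : ℝ) * R ^ 2 * 2 ^ (ℓ * t) * E := by ring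
        _ ≤ η * (8 * R * 2 ^ (ℓ * t)) := e4
        _ = (8 * R * 2 ^ (ℓ * t)) * η := by ring
    have e6 : 10 * (R : ℝ) * E ≤ η := le_of_mul_le_mul_left e5 (by positivity)
    nlinarith
  have hPne : P.Nonempty := by
    obtain ⟨y, hy⟩ := hB
    exact ⟨cen y, (hcen y hy).1⟩
  have hPpos : (0 : ℝ) < P.card := by exact_mod_cast card_pos.2 hPne
  obtain ⟨q, hq, hqle⟩ : ∃ q ∈ P, η / (2 * P.card) ≤
      (((Sp q ×ˢ Bp q).filter (fun p => F p.1 p.2)).card : ℝ) -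
        4 * R * (((Sp q ×ˢ Bp q).filter (fun p => ¬ F p.1 p.2)).card : ℝ) := by
    refine exists_le_of_sum_le hPne ?_
    rw [sum_const, nsmul_eq_mul, sum_sub_distrib, ← mul_sum]
    have e1 : ∑ q ∈ P, (((Sp q ×ˢ Bp q).filter (fun p => F p.1 p.2)).card : ℝ) = O1 := by
      rw [← Nat.cast_sum, ← hpart (fun x y => F x y)]
    have e0 : ∑ q ∈ P, (((Sp q ×ˢ Bp q).filter (fun p => ¬ F p.1 p.2)).card : ℝ) = O0 := by
      rw [← Nat.cast_sum, ← hpart (fun x y => ¬ F x y)]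
    rw [e1, e0]
    have e2 : (P.card : ℝ) * (η / (2 * P.card)) = η / 2 := by
      field_simp
    rw [e2]
    have e3 : 4 * (R : ℝ) * O0 ≤ 4 * R * (S0 σ + E) := mul_le_mul_of_nonneg_left hO0 (by positivity)
    nlinarith
  refine ⟨Sp q, filter_subset _ _, Bp q, filter_subset _ _, ?_, ?_⟩
  · -- area
    have hc1 : (((Sp q ×ˢ Bp q).filter (fun p => F p.1 p.2)).card : ℝ) ≤
        ((Sp q).card * (Bp q).card : ℕ) := by
      rw [← card_product]
      exact_mod_cast card_filter_le _ _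
    have hc0 : (0 : ℝ) ≤ 4 * R * (((Sp q ×ˢ Bp q).filter (fun p => ¬ F p.1 p.2)).card : ℝ) := by
      positivity
    have hc2 : η ≤ (2 * P.card) * ((Sp q).card * (Bp q).card : ℕ) := by
      have : η / (2 * P.card) ≤ ((Sp q).card * (Bp q).card : ℕ) := by linarith
      rw [div_le_iff₀ (by positivity)] at this
      linarith
    have hPc' : (P.card : ℝ) ≤ 2 ^ (2 * (t * D) * (s + T) + 2) := by exact_mod_cast hPc
    have hRρ : (R : ℝ) ≤ 2 ^ ρ := by exact_mod_cast hρ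
    obtain ⟨z, hz⟩ : ∃ z : ℕ, z = (Sp q).card * (Bp q).card := ⟨_, rfl⟩
    rw [← hz] at hc2 ⊢
    have key : (ab : ℝ) ≤ 2 ^ (2 * (t * D) * (2 * ρ + 8 + ℓ * t + T) + 6 + ρ + ℓ * t) * z := by
      have hz0 : (0 : ℝ) ≤ z := Nat.cast_nonneg _
      calc (ab : ℝ) ≤ η * (8 * R * 2 ^ (ℓ * t)) := hη2
        _ ≤ ((2 * P.card) * z) * (8 * R * 2 ^ (ℓ * t)) :=
            mul_le_mul_of_nonneg_right hc2 (by positivity)
        _ ≤ ((2 * 2 ^ (2 * (t * D) * (s + T) + 2)) * z) * (8 * 2 ^ ρ * 2 ^ (ℓ * t)) := by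
            gcongr
        _ = 2 ^ (2 * (t * D) * (2 * ρ + 8 + ℓ * t + T) + 6 + ρ + ℓ * t) * z := by
            rw [hs]
            have : 2 * (t * D) * (2 * ρ + 8 + ℓ * t + T) + 6 + ρ + ℓ * t =
              (2 * (t * D) * (2 * ρ + 8 + ℓ * t + T) + 2) + 4 + ρ + ℓ * t := by ring
            rw [this, pow_add _ _ (ℓ * t), pow_add _ _ ρ, pow_add _ _ 4]
            ring
    exact_mod_cast key
  · have hc1 : (((Sp q ×ˢ Bp q).filter (fun p => F p.1 p.2)).card : ℝ) ≤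
        ((Sp q).card * (Bp q).card : ℕ) := by
      rw [← card_product]
      exact_mod_cast card_filter_le _ _
    have hpos : 0 ≤ η / (2 * P.card) := by positivity
    have : 4 * (R : ℝ) * (((Sp q ×ˢ Bp q).filter (fun p => ¬ F p.1 p.2)).card : ℝ) ≤
        ((Sp q).card * (Bp q).card : ℕ) := by linarith
    exact_mod_cast this

end Pool.Agent.H700.LR
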