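import Pool.Agent.H700.LR.Sbp

/-!
# Graphs with small bounded-error protocols whose leaves have small VC dimension
-/

set_option autoImplicit false

namespace Pool.Agent.H700.LR

open Finset
open Pool.Agent.Y424.LR (mat bv)
open Pool.Agent.Y424.PP (HasPure)
open Pool.Agent.R533.VC (Growth VCdim growth_of_vc tr tr_rect tr_length)

/-- a function of growth `D` on a rectangle has growth `D + 1` -/
theorem growth_rect {X Y : Type} (h : X → Y → Bool) (D : ℕ) (hh : Growth h D) (F : X → Y → Bool)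
    (SX : X → Bool) (SY : Y → Bool) (hF : ∀ x y, F x y = (SX x && SY y && h x y)) :
    Growth F (D + 1) := by
  classical
  intro m x P
  rcases Nat.eq_zero_or_pos m with hm | hm
  · subst hm
    have : (P.image (fun (y : Y) (i : Fin 0) => F (x i) y)).card ≤ 1 := by
      rw [card_le_one]
      intro a _ b _
      exact Subsingleton.elim _ _
    simpa using this
  · have hsub : P.image (fun (y : Y) (i : Fin m) => F (x i) y) ⊆
        insert (fun _ => false) ((P.image (fun (y : Y) (i : Fin m) => h (x i) y)).image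
          (fun τ i => SX (x i) && τ i)) := by
      intro τ hτ
      obtain ⟨y, hy, rfl⟩ := mem_image.1 hτ
      by_cases hs : SY y = true
      · refine mem_insert_of_mem (mem_image.2 ⟨fun i => h (x i) y, mem_image_of_mem _ hy, ?_⟩)
        funext i
        rw [hF, hs, Bool.and_true]
      · refine mem_insert.2 (Or.inl ?_)
        funext i
        rw [hF]
        simp [hs]
    calc (P.image (fun (y : Y) (i : Fin m) => F (x i) y)).card
        ≤ ((P.image (fun (y : Y) (i : Fin m) => h (x i) y)).image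
          (fun τ i => SX (x i) && τ i)).card + 1 :=
          (card_le_card hsub).trans (card_insert_le _ _)
      _ ≤ (m + 1) ^ D + 1 := Nat.add_le_add_right (card_image_le.trans (hh m x P)) 1
      _ ≤ (m + 1) ^ D + (m + 1) ^ D := Nat.add_le_add_left (Nat.one_le_pow _ _ (by omega)) _
      _ ≤ (m + 1) ^ (D + 1) := by
          rw [pow_succ]
          have : 0 < (m + 1) ^ D := Nat.pow_pos (by omega)
          nlinarith

/-- The value of the leaf function `h` at the inputs `x`, `y` and at the transcript of the protocol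
with `c` bits given by `owner`, `a`, `b` (`t` is the transcript so far, `owner t` says who speaks). -/
def leafValue {X Y : Type} (c : ℕ) (owner : List Bool → Bool) (a : List Bool → X → Bool)
    (b : List Bool → Y → Bool) (h : List Bool → X → Y → Bool) (x : X) (y : Y) : Bool :=
  h (Nat.iterate (fun t : List Bool => t ++ [if owner t then a t x else b t y]) c []) x y

theorem clog_real_le (n : ℕ) (hn : 1 ≤ n) : (Nat.clog 2 n : ℝ) ≤ Real.logb 2 n + 1 :=
  Pool.Agent.H630R2.LR.clog_le n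

/-- the number of bits -/
def sbpExp (g ρ D ℓ T : ℕ) : ℕ :=
  2 * (g * (2 * ρ + 5) * D) * (2 * ρ + 8 + ℓ * (g * (2 * ρ + 5)) + T) + 6 + ρ +
    ℓ * (g * (2 * ρ + 5))

/-- **Pure pairs.** -/
theorem sbp_pure {V Ω : Type} [Fintype V] [Fintype Ω] [Nonempty Ω] (F : V → V → Bool) (β : Bool)
    (hirr : ∀ x, F x x = false)
    (f : Ω → V → V → Bool) (D g ℓ ρ T : ℕ) (α : ℝ) (hα : 0 < α) (hg : 1 ≤ g)
    (hf : ∀ ω, Growth (f ω) D)
    (h1 : ∀ x y, x ≠ y → F x y = β →
      α * (Fintype.card Ω : ℝ) ≤ ((univ.filter (fun ω => f ω x y = true)).card : ℝ))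
    (h0 : ∀ x y, x ≠ y → F x y ≠ β →
      ((univ.filter (fun ω => f ω x y = true)).card : ℝ) ≤
        (1 - 1 / (g : ℝ)) * (α * (Fintype.card Ω : ℝ)))
    (hℓ : 1 ≤ α * 2 ^ ℓ) (hρ : (mat F).rank + 1 ≤ 2 ^ ρ)
    (hT : 2 * (g * (2 * ρ + 5) * D) ≤ 2 ^ T) :
    HasPure F (2 * (4 * 2 ^ sbpExp g ρ D ℓ T)) := by
  classical
  apply Pool.Agent.Y424.PP.pure_of_almost
  intro W hW
  obtain ⟨x0, hx0, y0, hy0, hxy0⟩ := hW
  have hne : x0 ≠ y0 := by
    rintro rfl
    rw [hirr] at hxy0
    exact absurd hxy0 (by decide)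
  have hW2 : 2 ≤ W.card := by
    have : ({x0, y0} : Finset V) ⊆ W := by
      intro z hz
      rw [mem_insert, mem_singleton] at hz
      rcases hz with rfl | rfl
      · exact hx0
      · exact hy0
    calc 2 = ({x0, y0} : Finset V).card := (card_pair hne).symm
      _ ≤ W.card := card_le_card this
  obtain ⟨A, hAW, hA⟩ := exists_subset_card_eq (show W.card / 2 ≤ W.card from Nat.div_le_self _ _)
  obtain ⟨B, hB⟩ : ∃ B, B = W \ A := ⟨_, rfl⟩
  have hBW : B ⊆ W := by rw [hB]; exact sdiff_subset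
  have hBc : B.card + A.card = W.card := by
    rw [hB]
    exact card_sdiff_add_card_eq_card hAW
  have hAn : A.Nonempty := by
    rw [← card_pos]
    omega
  have hBn : B.Nonempty := by
    rw [← card_pos]
    omega
  have hdisj : ∀ x ∈ A, ∀ y ∈ B, x ≠ y := by
    rintro x hx y hy rfl
    rw [hB, mem_sdiff] at hy
    exact hy.2 hx
  have hpos : 1 ≤ 2 ^ sbpExp g ρ D ℓ T := Nat.one_le_two_pow
  have hW4A : W.card ≤ 4 * A.card := by omega
  have hW4B : W.card ≤ 4 * B.card := by omega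
  by_cases hd : A.card * B.card ≤
      4 * ((mat F).rank + 1) * ((A ×ˢ B).filter (fun p => F p.1 p.2 = β)).card
  · obtain ⟨A', hA', B', hB', h3, h4⟩ := sbp_rect (fun x y => F x y = β) f D ((mat F).rank + 1) g ℓ ρ
      T α hα hf A B hAn hBn (fun x hx y hy hxy => h1 x y (hdisj x hx y hy) hxy)
      (fun x hx y hy hxy => h0 x y (hdisj x hx y hy) hxy) hg (by omega) hd hℓ hρ hT
    have h5 : A.card * B.card ≤ 2 ^ sbpExp g ρ D ℓ T * (A'.card * B'.card) := h3
    have hAB' : A'.card ≤ A.card := card_le_card hA'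
    have hBB' : B'.card ≤ B.card := card_le_card hB'
    refine ⟨A', hA'.trans hAW, B', hB'.trans hBW, ?_, ?_, β, ?_⟩
    · have h6 : A.card ≤ 2 ^ sbpExp g ρ D ℓ T * A'.card := by
        have h7 : A.card * B.card ≤ (2 ^ sbpExp g ρ D ℓ T * A'.card) * B.card := by
          calc A.card * B.card ≤ 2 ^ sbpExp g ρ D ℓ T * (A'.card * B'.card) := h5
            _ = (2 ^ sbpExp g ρ D ℓ T * A'.card) * B'.card := by ring
            _ ≤ (2 ^ sbpExp g ρ D ℓ T * A'.card) * B.card := Nat.mul_le_mul_left _ hBB'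
        exact Nat.le_of_mul_le_mul_right h7 (card_pos.2 hBn)
      calc W.card ≤ 4 * A.card := hW4A
        _ ≤ 4 * (2 ^ sbpExp g ρ D ℓ T * A'.card) := Nat.mul_le_mul_left _ h6
        _ = 4 * 2 ^ sbpExp g ρ D ℓ T * A'.card := by ring
    · have h6 : B.card ≤ 2 ^ sbpExp g ρ D ℓ T * B'.card := by
        have h7 : B.card * A.card ≤ (2 ^ sbpExp g ρ D ℓ T * B'.card) * A.card := by
          calc B.card * A.card = A.card * B.card := by ring
            _ ≤ 2 ^ sbpExp g ρ D ℓ T * (A'.card * B'.card) := h5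
            _ = (2 ^ sbpExp g ρ D ℓ T * B'.card) * A'.card := by ring
            _ ≤ (2 ^ sbpExp g ρ D ℓ T * B'.card) * A.card := Nat.mul_le_mul_left _ hAB'
        exact Nat.le_of_mul_le_mul_right h7 (card_pos.2 hAn)
      calc W.card ≤ 4 * B.card := hW4B
        _ ≤ 4 * (2 ^ sbpExp g ρ D ℓ T * B'.card) := Nat.mul_le_mul_left _ h6
        _ = 4 * 2 ^ sbpExp g ρ D ℓ T * B'.card := by ring
    · exact h4
  · refine ⟨A, hAW, B, hBW, ?_, ?_, !β, ?_⟩
    · calc W.card ≤ 4 * A.card := hW4A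
        _ ≤ 4 * 2 ^ sbpExp g ρ D ℓ T * A.card := by
          refine Nat.mul_le_mul_right _ ?_
          omega
    · calc W.card ≤ 4 * B.card := hW4B
        _ ≤ 4 * 2 ^ sbpExp g ρ D ℓ T * B.card := by
          refine Nat.mul_le_mul_right _ ?_
          omega
    · have e : (A ×ˢ B).filter (fun p => F p.1 p.2 ≠ !β) =
          (A ×ˢ B).filter (fun p => F p.1 p.2 = β) := by
        refine filter_congr fun p _ => ?_
        cases F p.1 p.2 <;> cases β <;> simp
      rw [e]
      push Not at hd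
      exact hd.le

theorem clog_pow_le (n : ℕ) : n ≤ 2 ^ Nat.clog 2 n := Nat.le_pow_clog (by norm_num) _

/-- **The numerical bound.** -/
theorem sbp_num (g D r ρ ℓ T : ℕ) (lam : ℝ) (hg : 1 ≤ g) (hD : 1 ≤ D) (hlam : 1 ≤ lam)
    (hρ : ρ = Nat.clog 2 (r + 1)) (hℓ : (ℓ : ℝ) ≤ lam)
    (hT : T = Nat.clog 2 (2 * (g * (2 * ρ + 5) * D))) :
    (sbpExp g ρ D ℓ T : ℝ) + 4 ≤
      525 * g ^ 2 * D * (lam + Real.logb 2 D) * (Real.logb 2 (r : ℝ) + 1) ^ 2 := by
  have hL0 := Pool.Agent.H630R2.LR.logb_nonneg r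
  obtain ⟨L, hL⟩ : ∃ L, L = Real.logb 2 (r : ℝ) + 1 := ⟨_, rfl⟩
  rw [← hL]
  have hL1 : 1 ≤ L := by rw [hL]; linarith
  have hgr : (1 : ℝ) ≤ g := by exact_mod_cast hg
  have hDr : (1 : ℝ) ≤ D := by exact_mod_cast hD
  have hlogD : 0 ≤ Real.logb 2 (D : ℝ) := Real.logb_nonneg (by norm_num) hDr
  have hρ2 : (ρ : ℝ) ≤ 2 * L := by
    rw [hρ]
    have h1 := Pool.Agent.H630R2.LR.clog_le (r + 1)
    have h2 : Real.logb 2 ((r + 1 : ℕ) : ℝ) ≤ Real.logb 2 (r : ℝ) + 1 := by
      rcases Nat.eq_zero_or_pos r with hr | hr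
      · rw [hr]
        simp
      · have hr0 : (1 : ℝ) ≤ (r : ℝ) := by exact_mod_cast hr
        have e : Real.logb 2 (r : ℝ) + 1 = Real.logb 2 (2 * (r : ℝ)) := by
          rw [Real.logb_mul (by norm_num) (by positivity), Real.logb_self_eq_one (by norm_num)]
          ring
        rw [e]
        refine Real.logb_le_logb_of_le (by norm_num) (by positivity) ?_
        push_cast
        linarith
    linarith
  obtain ⟨t, ht⟩ : ∃ t, t = g * (2 * ρ + 5) := ⟨_, rfl⟩
  rw [← ht] at hT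
  have htr : (t : ℝ) ≤ 9 * (g * L) := by
    rw [ht]
    push_cast
    have : (2 * (ρ : ℝ) + 5) ≤ 9 * L := by linarith
    calc (g : ℝ) * (2 * ρ + 5) ≤ g * (9 * L) := mul_le_mul_of_nonneg_left this (by linarith)
      _ = 9 * (g * L) := by ring
  have ht1 : 1 ≤ t := by
    rw [ht]
    exact Nat.mul_pos hg (by omega)
  have ht1r : (1 : ℝ) ≤ t := by exact_mod_cast ht1
  have hgL : 1 ≤ g * L := by nlinarith
  have hTr : (T : ℝ) ≤ 7 * (g * L) + Real.logb 2 D := by
    have h1 := Pool.Agent.H630R2.LR.clog_le (2 * (t * D))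
    rw [← hT] at h1
    have h2 : Real.logb 2 ((2 * (t * D) : ℕ) : ℝ) = 1 + Real.logb 2 t + Real.logb 2 D := by
      push_cast
      rw [Real.logb_mul (by norm_num) (by positivity), Real.logb_mul (by positivity) (by positivity),
        Real.logb_self_eq_one (by norm_num)]
      ring
    have h3 : Real.logb 2 (t : ℝ) ≤ 4 + g * L := by
      have h4 : Real.logb 2 (t : ℝ) ≤ Real.logb 2 (16 * (g * L)) :=
        Real.logb_le_logb_of_le (by norm_num) (by positivity) (by linarith)
      have h5 : Real.logb 2 (16 * (g * L)) = 4 + Real.logb 2 (g * L) := by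
        rw [Real.logb_mul (by norm_num) (by positivity)]
        have : (16 : ℝ) = 2 ^ (4 : ℕ) := by norm_num
        rw [this, Real.logb_pow, Real.logb_self_eq_one (by norm_num)]
        norm_num
      have h6 : Real.logb 2 (g * L) ≤ g * L := by
        rw [Real.logb_le_iff_le_rpow (by norm_num) (by positivity)]
        have h7 : (g * L : ℝ) + 1 ≤ (1 + 1 : ℝ) ^ (g * L : ℝ) := by
          have := one_add_mul_self_le_rpow_one_add (s := (1 : ℝ)) (by norm_num) hgL
          linarith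
        have : (1 + 1 : ℝ) = 2 := by norm_num
        rw [this] at h7
        linarith
      linarith
    linarith
  have hℓt : (ℓ : ℝ) * t ≤ 9 * (g * L) * lam := by
    calc (ℓ : ℝ) * t ≤ lam * (9 * (g * L)) := mul_le_mul hℓ htr (by positivity) (by linarith)
      _ = 9 * (g * L) * lam := by ring
  obtain ⟨q, hq⟩ : ∃ q, q = g * L := ⟨_, rfl⟩
  rw [← hq] at htr hTr hℓt hgL
  have hLq : L ≤ q := by rw [hq]; nlinarith
  obtain ⟨μ, hμ⟩ : ∃ μ, μ = lam + Real.logb 2 D := ⟨_, rfl⟩
  have hμ1 : 1 ≤ μ := by rw [hμ]; linarith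
  have hlm : lam ≤ μ := by rw [hμ]; linarith
  have hqμ : q ≤ q * μ := le_mul_of_one_le_right (by linarith) hμ1
  have hqlam : q * lam ≤ q * μ := mul_le_mul_of_nonneg_left hlm (by linarith)
  have hlogq : Real.logb 2 D ≤ q * μ := by
    have h8 : Real.logb 2 D ≤ μ := by rw [hμ]; linarith
    calc Real.logb 2 D ≤ μ := h8
      _ = 1 * μ := (one_mul _).symm
      _ ≤ q * μ := mul_le_mul_of_nonneg_right hgL (by linarith)
  have hs : 2 * (ρ : ℝ) + 8 + ℓ * t + T ≤ 28 * (q * μ) := by
    have e2 : 9 * q * lam ≤ 9 * (q * μ) := by linarith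
    have e3 : (q : ℝ) * μ ≥ q := hqμ
    have e4 : (T : ℝ) ≤ 7 * q + Real.logb 2 D := hTr
    -- the logarithm of `D` is counted with the ones of `lam`
    have e5 : 9 * q * lam + Real.logb 2 D ≤ 9 * (q * μ) := by
      rw [hμ]
      nlinarith
    nlinarith
  have hexp : (sbpExp g ρ D ℓ T : ℝ) + 4 =
      2 * (t * D) * (2 * ρ + 8 + ℓ * t + T) + 10 + ρ + ℓ * t := by
    unfold sbpExp
    rw [← ht]
    push_cast
    ring
  rw [hexp]
  have hmain : 2 * ((t : ℝ) * D) * (2 * ρ + 8 + ℓ * t + T) ≤ 504 * (q ^ 2 * D * μ) := by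
    calc 2 * ((t : ℝ) * D) * (2 * ρ + 8 + ℓ * t + T)
        ≤ 2 * ((9 * q) * D) * (28 * (q * μ)) := by
          refine mul_le_mul ?_ hs (by positivity) (by positivity)
          have := mul_le_mul_of_nonneg_right htr (show (0 : ℝ) ≤ D by linarith)
          linarith
      _ = 504 * (q ^ 2 * D * μ) := by ring
  have hrest : 10 + (ρ : ℝ) + ℓ * t ≤ 21 * (q ^ 2 * D * μ) := by
    have e1 : q * μ ≤ q ^ 2 * D * μ := by
      have h9 : q ≤ q ^ 2 * D := by
        have : q ≤ q ^ 2 := by nlinarith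
        nlinarith
      exact mul_le_mul_of_nonneg_right h9 (by linarith)
    nlinarith
  have hfin : 525 * (g : ℝ) ^ 2 * D * (lam + Real.logb 2 D) * L ^ 2 = 525 * (q ^ 2 * D * μ) := by
    rw [hq, hμ]
    ring
  rw [hfin]
  linarith

end Pool.Agent.H700.LR
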