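import Pool.Agent.H700.LR.Rect

/-!
# Separable functions: additive on large rectangles
-/

set_option autoImplicit false

namespace Pool.Agent.H700.LR

open Finset

/-- a median -/
theorem median {U : Type} (A : Finset U) (hA : A.Nonempty) (p : U → ℝ) :
    ∃ m : ℝ, A.card ≤ 2 * (A.filter (fun x => p x ≤ m)).card ∧
      A.card ≤ 2 * (A.filter (fun x => m ≤ p x)).card := by
  classical
  obtain ⟨x1, hx1, hmax⟩ := exists_max_image A p hA
  have hS : (A.filter (fun x => A.card ≤ 2 * (A.filter (fun y => p y ≤ p x)).card)).Nonempty := by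
    refine ⟨x1, mem_filter.2 ⟨hx1, ?_⟩⟩
    have : A.filter (fun y => p y ≤ p x1) = A := filter_true_of_mem fun y hy => hmax y hy
    rw [this]
    omega
  obtain ⟨x0, hx0, hmin⟩ := exists_min_image _ p hS
  obtain ⟨hx0A, hx0c⟩ := mem_filter.1 hx0
  refine ⟨p x0, hx0c, ?_⟩
  have h1 : (A.filter (fun x => p x0 ≤ p x)).card + (A.filter (fun x => ¬ p x0 ≤ p x)).card =
      A.card := card_filter_add_card_filter_not (s := A) (fun x => p x0 ≤ p x)
  rcases (A.filter (fun x => ¬ p x0 ≤ p x)).eq_empty_or_nonempty with h0 | h0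
  · rw [h0, card_empty] at h1
    omega
  · obtain ⟨x2, hx2, hmax2⟩ := exists_max_image _ p h0
    obtain ⟨hx2A, hx2c⟩ := mem_filter.1 hx2
    have h2 : ¬ A.card ≤ 2 * (A.filter (fun y => p y ≤ p x2)).card := by
      intro h
      exact hx2c (hmin x2 (mem_filter.2 ⟨hx2A, h⟩))
    have h3 : (A.filter (fun x => ¬ p x0 ≤ p x)).card ≤ (A.filter (fun y => p y ≤ p x2)).card := by
      refine card_le_card fun y hy => ?_
      exact mem_filter.2 ⟨(mem_filter.1 hy).1, hmax2 y hy⟩
    omega

/-- comparisons are constant on a quarter -/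
theorem threshold {U W : Type} (A : Finset U) (B : Finset W) (hA : A.Nonempty) (p : U → ℝ)
    (q : W → ℝ) : ∃ A' ⊆ A, ∃ B' ⊆ B, A.card ≤ 2 * A'.card ∧ B.card ≤ 2 * B'.card ∧
      ((∀ x ∈ A', ∀ y ∈ B', p x ≤ q y) ∨ (∀ x ∈ A', ∀ y ∈ B', q y < p x)) := by
  classical
  obtain ⟨m, h1, h2⟩ := median A hA p
  have h3 : (B.filter (fun y => m ≤ q y)).card + (B.filter (fun y => ¬ m ≤ q y)).card = B.card :=
    card_filter_add_card_filter_not (s := B) (fun y => m ≤ q y)
  by_cases h : B.card ≤ 2 * (B.filter (fun y => m ≤ q y)).card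
  · refine ⟨A.filter (fun x => p x ≤ m), filter_subset _ _, B.filter (fun y => m ≤ q y),
      filter_subset _ _, h1, h, Or.inl fun x hx y hy => ?_⟩
    exact (mem_filter.1 hx).2.trans (mem_filter.1 hy).2
  · refine ⟨A.filter (fun x => m ≤ p x), filter_subset _ _, B.filter (fun y => ¬ m ≤ q y),
      filter_subset _ _, h2, by omega, Or.inr fun x hx y hy => ?_⟩
    exact (not_le.1 (mem_filter.1 hy).2).trans_le (mem_filter.1 hx).2

theorem nonempty_of_card {U : Type} {A A' : Finset U} {c : ℕ} (hA : A.Nonempty)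
    (h : A.card ≤ c * A'.card) : A'.Nonempty := by
  rw [← card_pos] at hA ⊢
  by_contra h0
  have : A'.card = 0 := by omega
  rw [this, mul_zero] at h
  omega

/-- the index of the minimum of sums is constant on a large rectangle -/
theorem argmin {ι U W : Type} (I : Finset ι) (hI : I.Nonempty) (α : ι → U → ℝ) (β : ι → W → ℝ)
    (A : Finset U) (B : Finset W) (hA : A.Nonempty) :
    ∃ i ∈ I, ∃ A' ⊆ A, ∃ B' ⊆ B, A.card ≤ 2 ^ (I.card - 1) * A'.card ∧
      B.card ≤ 2 ^ (I.card - 1) * B'.card ∧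
      ∀ j ∈ I, ∀ x ∈ A', ∀ y ∈ B', α i x + β i y ≤ α j x + β j y := by
  classical
  induction hI using Finset.Nonempty.cons_induction with
  | singleton i =>
    refine ⟨i, mem_singleton_self i, A, Subset.rfl, B, Subset.rfl, by simp, by simp, ?_⟩
    intro j hj x _ y _
    rw [mem_singleton] at hj
    rw [hj]
  | cons j I hj hI ih =>
    obtain ⟨i, hi, A', hA', B', hB', h1, h2, h3⟩ := ih
    have hA'n := nonempty_of_card hA h1
    obtain ⟨A2, hA2, B2, hB2, h4, h5, h6⟩ := threshold A' B' hA'n (fun x => α i x - α j x)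
      (fun y => β j y - β i y)
    have hcard : (Finset.cons j I hj).card - 1 = (I.card - 1) + 1 := by
      rw [card_cons]
      have := card_pos.2 hI
      omega
    have c1 : A.card ≤ 2 ^ ((Finset.cons j I hj).card - 1) * A2.card := by
      rw [hcard]
      calc A.card ≤ 2 ^ (I.card - 1) * A'.card := h1
        _ ≤ 2 ^ (I.card - 1) * (2 * A2.card) := Nat.mul_le_mul_left _ h4
        _ = 2 ^ ((I.card - 1) + 1) * A2.card := by ring
    have c2 : B.card ≤ 2 ^ ((Finset.cons j I hj).card - 1) * B2.card := by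
      rw [hcard]
      calc B.card ≤ 2 ^ (I.card - 1) * B'.card := h2
        _ ≤ 2 ^ (I.card - 1) * (2 * B2.card) := Nat.mul_le_mul_left _ h5
        _ = 2 ^ ((I.card - 1) + 1) * B2.card := by ring
    rcases h6 with h6 | h6
    · refine ⟨i, mem_cons_of_mem hi, A2, hA2.trans hA', B2, hB2.trans hB', c1, c2, ?_⟩
      intro l hl x hx y hy
      rcases mem_cons.1 hl with rfl | hl
      · have := h6 x hx y hy
        linarith
      · exact h3 l hl x (hA2 hx) y (hB2 hy)
    · refine ⟨j, mem_cons_self j I, A2, hA2.trans hA', B2, hB2.trans hB', c1, c2, ?_⟩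
      intro l hl x hx y hy
      rcases mem_cons.1 hl with rfl | hl
      · exact le_rfl
      · have h7 := h6 x hx y hy
        have h8 := h3 l hl x (hA2 hx) y (hB2 hy)
        linarith

/-- `δ` is a sum of functions of one variable on `X × Y` -/
def Additive {V : Type} (δ : V → V → ℝ) (X Y : Finset V) : Prop :=
  ∃ a b : V → ℝ, ∀ u ∈ X, ∀ v ∈ Y, δ u v = a u + b v

/-- every rectangle contains a large rectangle on which `δ` is additive -/
def Separable {V : Type} (δ : V → V → ℝ) (c : ℕ) : Prop :=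
  ∀ X Y : Finset V, X.Nonempty → Y.Nonempty → ∃ X' ⊆ X, ∃ Y' ⊆ Y,
    X.card ≤ c * X'.card ∧ Y.card ≤ c * Y'.card ∧ Additive δ X' Y'

theorem Additive.mono {V : Type} {δ : V → V → ℝ} {X Y X' Y' : Finset V} (h : Additive δ X Y)
    (hX : X' ⊆ X) (hY : Y' ⊆ Y) : Additive δ X' Y' := by
  obtain ⟨a, b, h⟩ := h
  exact ⟨a, b, fun u hu v hv => h u (hX hu) v (hY hv)⟩

/-- simultaneous additivity -/
theorem separable_many {V ι : Type} (I : Finset ι) (δ : ι → V → V → ℝ) (c : ℕ)
    (h : ∀ i ∈ I, Separable (δ i) c) (X Y : Finset V) (hX : X.Nonempty) (hY : Y.Nonempty) :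
    ∃ X' ⊆ X, ∃ Y' ⊆ Y, X.card ≤ c ^ I.card * X'.card ∧ Y.card ≤ c ^ I.card * Y'.card ∧
      ∀ i ∈ I, Additive (δ i) X' Y' := by
  classical
  induction I using Finset.cons_induction with
  | empty => exact ⟨X, Subset.rfl, Y, Subset.rfl, by simp, by simp, fun i hi => by simp at hi⟩
  | cons j I hj ih =>
    obtain ⟨X1, hX1, Y1, hY1, h1, h2, h3⟩ := ih (fun i hi => h i (mem_cons_of_mem hi))
    obtain ⟨X2, hX2, Y2, hY2, h4, h5, h6⟩ := h j (mem_cons_self j I) X1 Y1
      (nonempty_of_card hX h1) (nonempty_of_card hY h2)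
    refine ⟨X2, hX2.trans hX1, Y2, hY2.trans hY1, ?_, ?_, ?_⟩
    · rw [card_cons]
      calc X.card ≤ c ^ I.card * X1.card := h1
        _ ≤ c ^ I.card * (c * X2.card) := Nat.mul_le_mul_left _ h4
        _ = c ^ (I.card + 1) * X2.card := by ring
    · rw [card_cons]
      calc Y.card ≤ c ^ I.card * Y1.card := h2
        _ ≤ c ^ I.card * (c * Y2.card) := Nat.mul_le_mul_left _ h5
        _ = c ^ (I.card + 1) * Y2.card := by ring
    · intro i hi
      rcases mem_cons.1 hi with rfl | hi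
      · exact h6
      · exact (h3 i hi).mono hX2 hY2

/-- weighted sums of separable functions -/
theorem separable_sum {V : Type} {m : ℕ} (δ : Fin m → V → V → ℝ) (w : Fin m → ℝ) (c : ℕ)
    (h : ∀ i, Separable (δ i) c) : Separable (fun u v => ∑ i, w i * δ i u v) (c ^ m) := by
  classical
  intro X Y hX hY
  obtain ⟨X', hX', Y', hY', h1, h2, h3⟩ := separable_many univ δ c (fun i _ => h i) X Y hX hY
  rw [card_univ, Fintype.card_fin] at h1 h2
  refine ⟨X', hX', Y', hY', h1, h2, ?_⟩
  choose a b hab using fun i => h3 i (mem_univ i)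
  refine ⟨fun u => ∑ i, w i * a i u, fun v => ∑ i, w i * b i v, fun u hu v hv => ?_⟩
  simp only
  rw [← sum_add_distrib]
  refine sum_congr rfl fun i _ => ?_
  rw [hab i u hu v hv]
  ring

end Pool.Agent.H700.LR
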