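import Pool.Agent.H700.LR.Host

/-!
# Bounded treewidth implies bounded width
-/

set_option autoImplicit false

namespace Pool.Agent.H700.LR

open Finset

/-- treewidth at most `t`: some supergraph `C` has an elimination ordering in which the later
neighbours of every vertex are at most `t` pairwise adjacent vertices -/
def TreewidthLE {U : Type} (K : SimpleGraph U) (t : ℕ) : Prop :=
  ∃ (C : SimpleGraph U) (pos : U → ℕ), K ≤ C ∧ Function.Injective pos ∧
    ∀ v, {w | C.Adj v w ∧ pos v < pos w}.ncard ≤ t ∧
      ∀ w w', C.Adj v w → pos v < pos w → C.Adj v w' → pos v < pos w' → w ≠ w' → C.Adj w w'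

section

variable {U : Type} (C : SimpleGraph U) (pos : U → ℕ)

/-- later neighbours -/
def later (v : U) : Set U := {w | C.Adj v w ∧ pos v < pos w}

/-- `b` is the first later neighbour of `a` -/
def IsParent (a b : U) : Prop := b ∈ later C pos a ∧ ∀ w ∈ later C pos a, pos b ≤ pos w

/-- descendants -/
def desc (v : U) : Set U := {u | Relation.ReflTransGen (IsParent C pos) u v}

variable {C pos}

theorem later_parent (hinj : Function.Injective pos)
    (hcl : ∀ v w w', C.Adj v w → pos v < pos w → C.Adj v w' → pos v < pos w' → w ≠ w' → C.Adj w w')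
    {a b w : U} (h : IsParent C pos a b) (hw : w ∈ later C pos a) : w = b ∨ w ∈ later C pos b := by
  by_cases hwb : w = b
  · exact Or.inl hwb
  · right
    refine ⟨hcl a b w h.1.1 h.1.2 hw.1 hw.2 (Ne.symm hwb), ?_⟩
    rcases lt_or_eq_of_le (h.2 w hw) with h1 | h1
    · exact h1
    · exact absurd (hinj h1).symm hwb

theorem exists_parent {a w : U} (hw : w ∈ later C pos a) : ∃ b, IsParent C pos a b := by
  classical
  have hne : ∃ n, ∃ b ∈ later C pos a, pos b = n := ⟨_, w, hw, rfl⟩
  obtain ⟨b, hb, hbn⟩ := Nat.find_spec hne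
  refine ⟨b, hb, fun w' hw' => ?_⟩
  rw [hbn]
  exact Nat.find_min' hne ⟨w', hw', rfl⟩

theorem later_reach (hinj : Function.Injective pos)
    (hcl : ∀ v w w', C.Adj v w → pos v < pos w → C.Adj v w' → pos v < pos w' → w ≠ w' → C.Adj w w') :
    ∀ (n : ℕ) (w u : U), u ∈ later C pos w → pos u - pos w ≤ n →
      Relation.ReflTransGen (IsParent C pos) w u := by
  intro n
  induction n with
  | zero =>
    intro w u hu hn
    have := hu.2
    omega
  | succ n ih =>
    intro w u hu hn
    obtain ⟨b, hb⟩ := exists_parent hu
    rcases later_parent hinj hcl hb hu with h | h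
    · rw [h]
      exact Relation.ReflTransGen.single hb
    · refine Relation.ReflTransGen.head hb (ih b u h ?_)
      have h1 := hb.1.2
      have h2 := h.2
      omega

theorem later_desc (hinj : Function.Injective pos)
    (hcl : ∀ v w w', C.Adj v w → pos v < pos w → C.Adj v w' → pos v < pos w' → w ≠ w' → C.Adj w w')
    {u v w : U} (huv : Relation.ReflTransGen (IsParent C pos) u v) (hw : w ∈ later C pos u) :
    Relation.ReflTransGen (IsParent C pos) w v ∨ w ∈ later C pos v := by
  induction huv using Relation.ReflTransGen.head_induction_on with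
  | refl => exact Or.inr hw
  | head hab hbv ih =>
    rcases later_parent hinj hcl hab hw with h | h
    · rw [h]
      exact Or.inl hbv
    · exact ih h

theorem out_desc (hinj : Function.Injective pos)
    (hcl : ∀ v w w', C.Adj v w → pos v < pos w → C.Adj v w' → pos v < pos w' → w ≠ w' → C.Adj w w')
    {u v w : U} (hu : u ∈ desc C pos v) (hw : w ∉ desc C pos v) (huw : C.Adj u w) :
    w ∈ later C pos v := by
  rcases lt_trichotomy (pos u) (pos w) with h | h | h
  · rcases later_desc hinj hcl hu ⟨huw, h⟩ with h1 | h1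
    · exact absurd h1 hw
    · exact h1
  · exact absurd (hinj h) huw.ne
  · exfalso
    apply hw
    exact (later_reach hinj hcl _ w u ⟨huw.symm, h⟩ le_rfl).trans hu

end

/-- few outer neighbours give few types -/
theorem types_compl_le {U : Type} [Finite U] {K : SimpleGraph U} {S Z : Set U} {k : ℕ}
    (hZ : Z.ncard ≤ k) (h : ∀ u ∈ S, ∀ w ∉ S, K.Adj u w → w ∈ Z) : types K Sᶜ ≤ k + 1 := by
  classical
  unfold types
  have h1 : (fun a => K.neighborSet a \ Sᶜ) '' Sᶜ ⊆
      insert ∅ ((fun a => K.neighborSet a \ Sᶜ) '' Z) := by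
    rintro τ ⟨w, hw, rfl⟩
    by_cases hwZ : w ∈ Z
    · exact Set.mem_insert_of_mem _ ⟨w, hwZ, rfl⟩
    · left
      ext u
      simp only [Set.mem_diff, SimpleGraph.mem_neighborSet, Set.mem_compl_iff, not_not,
        Set.mem_empty_iff_false, iff_false, not_and]
      intro h2 h3
      exact hwZ (h u h3 w hw h2.symm)
  calc ((fun a => K.neighborSet a \ Sᶜ) '' Sᶜ).ncard
      ≤ (insert ∅ ((fun a => K.neighborSet a \ Sᶜ) '' Z)).ncard :=
        Set.ncard_le_ncard h1 (Set.toFinite _)
    _ ≤ ((fun a => K.neighborSet a \ Sᶜ) '' Z).ncard + 1 := Set.ncard_insert_le _ _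
    _ ≤ Z.ncard + 1 := Nat.add_le_add_right (Set.ncard_image_le (Set.toFinite _)) 1
    _ ≤ k + 1 := Nat.add_le_add_right hZ 1

/-- layouts of unions -/
theorem layout_union {U ι : Type} {K : SimpleGraph U} {k : ℕ} (D : ι → Set U) (A : Finset ι)
    (hA : A.Nonempty) (hL : ∀ i ∈ A, ∃ T : Layout U, T.verts = D i ∧ T.Small K k)
    (hcut : ∀ B : Finset ι, B ⊆ A → SmallCut K k (⋃ i ∈ B, D i)) :
    ∃ T : Layout U, T.verts = (⋃ i ∈ A, D i) ∧ T.Small K k := by
  classical
  induction hA using Finset.Nonempty.cons_induction with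
  | singleton i =>
    obtain ⟨T, hT, hs⟩ := hL i (mem_singleton_self i)
    exact ⟨T, by simp [hT], hs⟩
  | cons i A hi hA ih =>
    obtain ⟨T1, hT1, hs1⟩ := ih (fun j hj => hL j (mem_cons_of_mem hj))
      (fun B hB => hcut B (hB.trans (subset_cons hi)))
    obtain ⟨T2, hT2, hs2⟩ := hL i (mem_cons_self i A)
    refine ⟨Layout.node T2 T1, ?_, ?_, ?_, hs2, hs1⟩
    · simp only [Layout.verts, hT1, hT2]
      ext x
      simp
    · rw [hT2]
      have := hcut {i} (by simp)
      simpa using this
    · rw [hT1]
      exact hcut A (subset_cons hi)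

/-- **Treewidth at most `t` implies width at most `t + 2`.** -/
theorem widthLE_of_treewidthLE {U : Type} [Finite U] [Nonempty U] {K : SimpleGraph U} {t : ℕ}
    (h : TreewidthLE K t) : WidthLE K (t + 2) := by
  classical
  obtain ⟨C, pos, hKC, hinj, hC⟩ := h
  have hcl : ∀ v w w', C.Adj v w → pos v < pos w → C.Adj v w' → pos v < pos w' → w ≠ w' →
      C.Adj w w' := fun v => (hC v).2
  have hlate : ∀ v, (later C pos v).ncard ≤ t := fun v => (hC v).1
  have := Fintype.ofFinite U
  -- layouts of the sets of descendants
  have key : ∀ n : ℕ, ∀ v : U, pos v < n → ∃ T : Layout U, T.verts = desc C pos v ∧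
      T.Small K (t + 2) := by
    intro n
    induction n with
    | zero => intro v hv; omega
    | succ n ih =>
      intro v hv
      have hch : ∀ c : U, IsParent C pos c v → pos c < n := by
        intro c hc
        have := hc.1.2
        omega
      let A : Finset U := univ.filter (fun c => IsParent C pos c v)
      have hdesc : desc C pos v = (⋃ c ∈ A, desc C pos c) ∪ {v} := by
        ext u
        simp only [desc, Set.mem_setOf_eq, Set.mem_union, Set.mem_iUnion, Set.mem_singleton_iff,
          exists_prop]
        constructor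
        · intro hu
          rcases Relation.ReflTransGen.cases_tail hu with h1 | ⟨c, h1, h2⟩
          · exact Or.inr h1.symm
          · exact Or.inl ⟨c, mem_filter.2 ⟨mem_univ _, h2⟩, h1⟩
        · rintro (⟨c, hc, h1⟩ | rfl)
          · exact h1.tail (mem_filter.1 hc).2
          · exact Relation.ReflTransGen.refl
      have hcutA : ∀ B : Finset U, B ⊆ A → SmallCut K (t + 2) (⋃ c ∈ B, desc C pos c) := by
        intro B hB
        right
        refine types_compl_le (Z := insert v (later C pos v)) ?_ ?_
        · exact (Set.ncard_insert_le _ _).trans (Nat.add_le_add_right (hlate v) 1)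
        · intro u hu w hw huw
          simp only [Set.mem_iUnion, exists_prop] at hu hw
          obtain ⟨c, hc, huc⟩ := hu
          have hwc : w ∉ desc C pos c := fun h => hw ⟨c, hc, h⟩
          have h1 := out_desc hinj hcl huc hwc (hKC huw)
          have hcv := (mem_filter.1 (hB hc)).2
          rcases later_parent hinj hcl hcv h1 with h2 | h2
          · exact Or.inl h2
          · exact Or.inr h2
      rcases A.eq_empty_or_nonempty with hA | hA
      · refine ⟨Layout.leaf v, ?_, trivial⟩
        rw [hdesc, hA]
        simp [Layout.verts]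
      · obtain ⟨T, hT, hs⟩ := layout_union (K := K) (k := t + 2) (fun c => desc C pos c) A hA
          (fun c hc => ih c (hch c (mem_filter.1 hc).2)) hcutA
        refine ⟨Layout.node T (Layout.leaf v), ?_, ?_, ?_, hs, trivial⟩
        · rw [hdesc]
          simp only [Layout.verts, hT]
        · rw [hT]
          exact hcutA A Subset.rfl
        · left
          simp only [Layout.verts, types, Set.image_singleton, Set.ncard_singleton]
          omega
  -- the roots
  let R : Finset U := univ.filter (fun v => later C pos v = ∅)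
  obtain ⟨M, hM⟩ : ∃ M, ∀ v : U, pos v < M := by
    obtain ⟨x0⟩ := (inferInstance : Nonempty U)
    refine ⟨(univ.sup pos) + 1, fun v => ?_⟩
    exact Nat.lt_succ_of_le (le_sup (mem_univ v))
  have hroot : ∀ n : ℕ, ∀ u : U, M - pos u ≤ n → ∃ v ∈ R, u ∈ desc C pos v := by
    intro n
    induction n with
    | zero =>
      intro u hu
      have := hM u
      omega
    | succ n ih =>
      intro u hu
      by_cases hl : later C pos u = ∅
      · exact ⟨u, mem_filter.2 ⟨mem_univ _, hl⟩, Relation.ReflTransGen.refl⟩
      · obtain ⟨w, hw⟩ := Set.nonempty_iff_ne_empty.2 hl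
        obtain ⟨b, hb⟩ := exists_parent hw
        have h1 := hb.1.2
        have h2 := hM b
        obtain ⟨v, hv, h3⟩ := ih b (by omega)
        exact ⟨v, hv, Relation.ReflTransGen.head hb h3⟩
  have hRne : R.Nonempty := by
    obtain ⟨x0⟩ := (inferInstance : Nonempty U)
    obtain ⟨v, hv, _⟩ := hroot _ x0 le_rfl
    exact ⟨v, hv⟩
  obtain ⟨T, hT, hs⟩ := layout_union (K := K) (k := t + 2) (fun c => desc C pos c) R hRne
    (fun c _ => key _ c (Nat.lt_succ_self _)) (by
      intro B hB
      right
      refine (types_compl_le (Z := ∅) (k := 0) (by simp) ?_).trans (by omega)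
      intro u hu w hw huw
      simp only [Set.mem_iUnion, exists_prop] at hu hw
      obtain ⟨c, hc, huc⟩ := hu
      have hwc : w ∉ desc C pos c := fun h => hw ⟨c, hc, h⟩
      have h1 := out_desc hinj hcl huc hwc (hKC huw)
      rw [(mem_filter.1 (hB hc)).2] at h1
      exact h1)
  refine ⟨T, ?_, hs⟩
  rw [hT]
  ext u
  simp only [Set.mem_iUnion, exists_prop, Set.mem_univ, iff_true]
  exact hroot _ u le_rfl

end Pool.Agent.H700.LR
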